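import Pool.Agent.P.MP_f1ed12_an.Vanish

/-! No holomorphic chart has all plaques inside or outside the non-escaping set near a boundary
point. -/

set_option autoImplicit false

open Metric Set Filter Topology

namespace Pool.Agent.HenonFol

namespace Data

variable (H : Data)

theorem plaque_bound {β : ℂ → ℂ × ℂ} (hβ : DifferentiableOn ℂ β (ball 0 1)) {B : ℝ}
    (hRB : H.R ≤ B) (hB : ∀ s ∈ closedBall (0 : ℂ) (3 / 4), ‖β s‖ ≤ B)
    (hdich : (∀ s ∈ ball (0 : ℂ) 1, β s ∈ H.K) ∨ (∀ s ∈ ball (0 : ℂ) 1, β s ∉ H.K)) {j : ℕ}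
    (hj : H.Z j (β 0) ∉ H.V) :
    ‖H.X j (β 0) (deriv β 0)‖ ≤ 2 * (H.C * (H.C * B) ^ 5) := by
  have hC := H.hC
  have hB1 : 1 ≤ B := H.one_le_R.trans hRB
  have hCB : B ≤ H.C * B := by nlinarith
  have hBB : B ≤ H.C * (H.C * B) ^ 5 := by
    have h1 : H.C * B ≤ (H.C * B) ^ 5 := le_self_pow₀ (by linarith) (by norm_num)
    nlinarith
  have hsub : closedBall (0 : ℂ) (3 / 4) ⊆ ball 0 1 := closedBall_subset_ball (by norm_num)
  have hnot : ∀ s : ℂ, ‖s‖ ≤ 1 / 2 → H.Z j (β s) ∉ H.V → ‖H.Z j (β s)‖ ≤ B := fun s hs h =>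
    (H.bound_notV h).trans (max_le hRB (hB s (by rw [mem_closedBall_zero_iff]; linarith)))
  have hbd : ∀ s : ℂ, ‖s‖ ≤ 1 / 2 → ‖H.Z j (β s)‖ ≤ H.C * (H.C * B) ^ 5 := by
    intro s hs
    by_cases hV : H.Z j (β s) ∈ H.V
    swap
    · exact (hnot s hs hV).trans hBB
    have hs' : s ∈ closedBall (0 : ℂ) (3 / 4) := by rw [mem_closedBall_zero_iff]; linarith
    rcases hdich with h | h
    · exact absurd hV (h s (hsub hs') j)
    obtain ⟨n₀, hn₀⟩ := H.uniform_entry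
      ((isCompact_closedBall (0 : ℂ) (3 / 4)).image_of_continuousOn (hβ.continuousOn.mono hsub))
      (by rintro _ ⟨w, hw, rfl⟩; exact h w (hsub hw))
    have hn : ∀ w ∈ closedBall (0 : ℂ) (3 / 4), H.Z (max n₀ j) (β w) ∈ H.V := fun w hw =>
      H.Z_mem (hn₀ _ (mem_image_of_mem _ hw)) (le_max_left _ _)
    set n := max n₀ j
    have hjn : j ≤ n := le_max_right _ _
    have hh := harnack (x := fun w => (H.Z n (β w)).1)
      (((H.differentiable_Z n).comp_differentiableOn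
        (hβ.mono (ball_subset_ball (by norm_num)))).fst)
      (fun w hw => H.one_le_R.trans_lt (hn w (ball_subset_closedBall hw)).1) hs
    have h1 := H.loglow hV hjn
    have h2 := H.logup (β 0) hjn
    have hD := H.D_pos' j
    have hDn := H.D_pos' n
    have hx : 0 < ‖(H.Z n (β s)).1‖ := by linarith [(hn s hs').1, H.one_le_R]
    have hx0 : 0 < ‖(H.Z n (β 0)).1‖ := by
      linarith [(hn 0 (mem_closedBall_self (by norm_num))).1, H.one_le_R]
    have hxj : 0 < ‖(H.Z j (β s)).1‖ := by linarith [hV.1, H.one_le_R]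
    have h3 : Real.log (‖(H.Z n (β s)).1‖ / H.C) ≤ Real.log ‖(H.Z n (β s)).1‖ :=
      Real.log_le_log (by positivity) (div_le_self hx.le hC)
    have h4 : Real.log ‖(H.Z n (β 0)).1‖ ≤ Real.log (H.C * max 1 ‖H.Z n (β 0)‖) := by
      refine Real.log_le_log hx0 ?_
      have := (norm_fst_le (H.Z n (β 0))).trans (le_max_right 1 _)
      nlinarith
    have h5 : Real.log (H.C * max 1 ‖H.Z j (β 0)‖) ≤ Real.log (H.C * B) := by
      refine Real.log_le_log (by positivity) ?_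
      gcongr
      exact max_le hB1 (hnot 0 (by simp) hj)
    have h6 : Real.log (‖(H.Z j (β s)).1‖ / H.C) / H.D j ≤ 5 * Real.log (H.C * B) / H.D j := by
      calc _ ≤ _ := h1
        _ ≤ 5 * Real.log (H.C * max 1 ‖H.Z n (β 0)‖) / H.D n := by
            gcongr; linarith
        _ = 5 * (Real.log (H.C * max 1 ‖H.Z n (β 0)‖) / H.D n) := by ring
        _ ≤ 5 * (Real.log (H.C * max 1 ‖H.Z j (β 0)‖) / H.D j) := by gcongr
        _ ≤ 5 * (Real.log (H.C * B) / H.D j) := by gcongr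
        _ = _ := by ring
    rw [div_le_div_iff_of_pos_right hD] at h6
    have h7 : ‖(H.Z j (β s)).1‖ / H.C ≤ (H.C * B) ^ 5 := by
      rw [← Real.log_le_log_iff (by positivity) (by positivity), Real.log_pow]
      exact_mod_cast h6
    rw [div_le_iff₀ H.C_pos] at h7
    rw [Prod.norm_def, max_eq_left hV.2.le]
    linarith
  have hder := (H.hasDerivAt_Z
    (hβ.differentiableAt (isOpen_ball.mem_nhds (mem_ball_self one_pos))).hasDerivAt j).deriv
  rw [← hder]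
  have hdiff : DifferentiableOn ℂ (fun s => H.Z j (β s)) (closure (ball 0 (1 / 2))) :=
    (H.differentiable_Z j).comp_differentiableOn (hβ.mono (closure_ball_subset_closedBall.trans
      (closedBall_subset_ball (by norm_num))))
  have := Complex.norm_deriv_le_of_forall_mem_sphere_norm_le (by norm_num) hdiff.diffContOnCl
    (fun s hs => hbd s (mem_sphere_zero_iff_norm.mp hs).le)
  linarith

theorem core {ψ : ℂ × ℂ → ℂ × ℂ} (hψ : DifferentiableOn ℂ ψ (ball 0 1 ×ˢ ball 0 1))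
    (hv0 : deriv (fun s => ψ (s, 0)) 0 ≠ 0) (h0 : ψ (0, 0) ∈ H.K)
    (hdich : ∀ t ∈ ball (0 : ℂ) 1,
      (∀ s ∈ ball (0 : ℂ) 1, ψ (s, t) ∈ H.K) ∨ (∀ s ∈ ball (0 : ℂ) 1, ψ (s, t) ∉ H.K))
    (hnear : ∀ ρ : ℝ, 0 < ρ → ∃ t : ℂ, ‖t‖ < ρ ∧ ψ (0, t) ∉ H.K) : False := by
  have hC := H.hC
  have hsub : closedBall (0 : ℂ) (3 / 4) ⊆ ball 0 1 := closedBall_subset_ball (by norm_num)
  have hsub' : ball (0 : ℂ) (3 / 4) ⊆ ball 0 1 := ball_subset_closedBall.trans hsub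
  obtain ⟨M₀, hM₀⟩ := ((isCompact_closedBall (0 : ℂ) (3 / 4)).prod
    (isCompact_closedBall (0 : ℂ) (3 / 4))).exists_bound_of_continuousOn
      (hψ.continuousOn.mono (prod_mono hsub hsub))
  set B := max H.R M₀ with hB
  have hψB : ∀ s ∈ closedBall (0 : ℂ) (3 / 4), ∀ t ∈ closedBall (0 : ℂ) (3 / 4),
      ‖ψ (s, t)‖ ≤ B := fun s hs t ht => (hM₀ (s, t) ⟨hs, ht⟩).trans (le_max_right _ _)
  set γ : ℂ → ℂ × ℂ := fun t => ψ (0, t) with hγdef
  set v : ℂ → ℂ × ℂ := fun t => deriv (fun s => ψ (s, t)) 0 with hvdef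
  have hγ : DifferentiableOn ℂ γ (ball 0 (3 / 4)) :=
    hψ.comp (by fun_prop) (fun t ht => ⟨mem_ball_self one_pos, hsub' ht⟩)
  have hv : DifferentiableOn ℂ v (ball 0 (3 / 4)) :=
    vhol hψ (fun s hs t ht => hψB s (ball_subset_closedBall hs) t (ball_subset_closedBall ht))
  have hβ : ∀ t ∈ ball (0 : ℂ) (3 / 4), DifferentiableOn ℂ (fun s => ψ (s, t)) (ball 0 1) :=
    fun t ht => hψ.comp (by fun_prop) (fun s hs => ⟨hs, hsub' ht⟩)
  have hγB : ∀ t ∈ ball (0 : ℂ) (3 / 4), ‖γ t‖ ≤ B := fun t ht =>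
    hψB 0 (mem_closedBall_self (by norm_num)) t (ball_subset_closedBall ht)
  have hB1 : 1 ≤ B := H.one_le_R.trans (le_max_left _ _)
  set C₃ := 2 * (H.C * (H.C * B) ^ 5) with hC₃
  have hC₃0 : 0 < C₃ := by positivity
  have F1 : ∀ j, ∀ t ∈ ball (0 : ℂ) (3 / 4), H.Z j (γ t) ∉ H.V → ‖H.X j (γ t) (v t)‖ ≤ C₃ :=
    fun j t ht hj => H.plaque_bound (hβ t ht) (le_max_left _ _)
      (fun s hs => hψB s hs t (ball_subset_closedBall ht)) (hdich t (hsub' ht)) hj
  have hnot : ∀ j, ∀ t ∈ ball (0 : ℂ) (3 / 4), H.Z j (γ t) ∉ H.V → ‖H.Z j (γ t)‖ ≤ B :=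
    fun j t ht hj => (H.bound_notV hj).trans (max_le (le_max_left _ _) (hγB t ht))
  have hv2 : ∀ t ∈ ball (0 : ℂ) (3 / 4), ‖v t‖ ≤ 2 * B := by
    intro t ht
    have hdiff : DifferentiableOn ℂ (fun s => ψ (s, t)) (closure (ball 0 (1 / 2))) :=
      (hβ t ht).mono (closure_ball_subset_closedBall.trans (closedBall_subset_ball (by norm_num)))
    have := Complex.norm_deriv_le_of_forall_mem_sphere_norm_le (by norm_num) hdiff.diffContOnCl
      (fun s hs => hψB s (by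
        rw [mem_closedBall_zero_iff, mem_sphere_zero_iff_norm.mp hs]; norm_num) t
        (ball_subset_closedBall ht))
    change ‖deriv (fun s => ψ (s, t)) 0‖ ≤ _
    linarith
  obtain ⟨Λ, hΛ1, hΛ⟩ := H.lipschitz B
  set C₄ := max (2 * B) (Λ * C₃) with hC₄
  have hC₄0 : 0 < C₄ := lt_max_of_lt_left (by linarith)
  have hnext : ∀ j, ∀ t ∈ ball (0 : ℂ) (3 / 4), H.Z j (γ t) ∉ H.V →
      ‖H.X (j + 1) (γ t) (v t)‖ ≤ C₄ := by
    intro j t ht hj
    refine ((hΛ j _ _ (hnot j t ht hj)).1.trans ?_).trans (le_max_right _ _)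
    gcongr
    exact F1 j t ht hj
  have hentry : ∀ t ∈ ball (0 : ℂ) (3 / 4), ∀ j, H.Z j (γ t) ∈ H.V →
      ∃ i ≤ j, H.Z i (γ t) ∈ H.V ∧ ‖H.X i (γ t) (v t)‖ ≤ C₄ := by
    intro t ht j
    induction j with
    | zero => exact fun h => ⟨0, le_rfl, h, (hv2 t ht).trans (le_max_left _ _)⟩
    | succ j ih =>
      intro h
      by_cases hj : H.Z j (γ t) ∈ H.V
      · obtain ⟨i, hi, h'⟩ := ih hj
        exact ⟨i, by omega, h'⟩
      · exact ⟨j + 1, le_rfl, h, hnext j t ht hj⟩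
  have F2 : ∀ j, ∀ t ∈ ball (0 : ℂ) (3 / 4), H.Z j (γ t) ∈ H.V →
      ‖H.sg (γ t) (v t) j‖ ≤ 4 * C₄ := by
    intro j t ht hj
    obtain ⟨i, hi, h1, h2⟩ := hentry t ht j hj
    have := H.sg_bound (v t) h1 hi
    linarith
  obtain ⟨y, hy, hyK⟩ := hnear (1 / 8) (by norm_num)
  obtain ⟨ρ, hρ, hρ1, hvan⟩ := H.vanish hγ hv (by positivity) F1 F2 h0 hy hyK
  have hρsub : closedBall (0 : ℂ) ρ ⊆ ball 0 (3 / 4) := closedBall_subset_ball (by linarith)
  have hdec : ∀ t ∈ closedBall (0 : ℂ) ρ, ∀ j, H.Z j (γ t) ∈ H.V →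
      ‖H.X (j + 1) (γ t) (v t)‖ ≤ 8 * H.C ^ 2 / ‖(H.Z j (γ t)).1‖ * ‖H.X j (γ t) (v t)‖ :=
    fun t ht j hj => H.decay (v t) hj (hvan t (mem_closedBall_zero_iff.mp ht) (fun h => h j hj))
  have hM : ∀ j, ∀ t ∈ closedBall (0 : ℂ) ρ, ‖H.X j (γ t) (v t)‖ ≤ C₄ := by
    intro j t ht
    induction j with
    | zero => exact (hv2 t (hρsub ht)).trans (le_max_left _ _)
    | succ j ih =>
      by_cases hj : H.Z j (γ t) ∈ H.V
      · refine (hdec t ht j hj).trans ?_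
        have h3 : 8 * H.C ^ 2 / ‖(H.Z j (γ t)).1‖ ≤ 1 := by
          have := hj.1
          have h := H.one_le_R
          rw [div_le_one (by linarith)]
          unfold R at this
          nlinarith
        calc _ ≤ 1 * C₄ := by gcongr
          _ = _ := one_mul _
      · exact hnext j t (hρsub ht) hj
  obtain ⟨t₀, ht₀, ht₀K⟩ := hnear (ρ / 4) (by positivity)
  have ht₀0 : 0 < ‖t₀‖ := norm_pos_iff.mpr (fun h => ht₀K (h ▸ h0))
  obtain ⟨j₀, hj₀⟩ : ∃ j, H.Z j (γ t₀) ∈ H.V := by simpa [K] using ht₀K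
  obtain ⟨ε, hε, hεy, hεV⟩ : ∃ ε : ℝ, 0 < ε ∧ ε ≤ ‖t₀‖ / 2 ∧
      ∀ t ∈ closedBall t₀ ε, H.Z j₀ (γ t) ∈ H.V := by
    have hc : ContinuousAt (fun t => H.Z j₀ (γ t)) t₀ :=
      ((H.differentiable_Z j₀).comp_differentiableOn hγ).continuousOn.continuousAt
        (isOpen_ball.mem_nhds (by rw [mem_ball_zero_iff]; linarith))
    have := hc.eventually (H.isOpen_V.mem_nhds hj₀)
    obtain ⟨ε, hε, h⟩ := Metric.nhds_basis_closedBall.eventually_iff.mp this
    exact ⟨min ε (‖t₀‖ / 2), by positivity, min_le_right _ _,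
      fun t ht => h (closedBall_subset_closedBall (min_le_left _ _) ht)⟩
  have hεsub : closedBall t₀ ε ⊆ closedBall 0 ρ := by
    refine closedBall_subset_closedBall' ?_
    rw [dist_zero_right]; linarith
  refine twoconst (h := fun j t => H.X j (γ t) (v t)) (c := ‖v 0‖) (Λ := Λ) hε (by linarith)
    ht₀.le (fun j => (H.differentiableOn_X hγ hv j).mono hρsub) hM ?_ (norm_pos_iff.mpr hv0)
    (by linarith) ?_
  · intro L hL
    obtain ⟨k₀, hk₀⟩ : ∃ k : ℕ, 8 * H.C ^ 2 * L < 2 ^ k := pow_unbounded_of_one_lt _ (by norm_num)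
    refine ⟨C₄ * max 1 L ^ (j₀ + k₀), fun j t ht => ?_⟩
    have hsmall : ∀ j, j ≤ j₀ + k₀ → ‖H.X j (γ t) (v t)‖ * L ^ j ≤ C₄ * max 1 L ^ (j₀ + k₀) := by
      intro j hj
      refine mul_le_mul (hM j t (hεsub ht)) ?_ (by positivity) hC₄0.le
      exact (pow_le_pow_left₀ hL.le (le_max_right 1 L) j).trans
        (pow_le_pow_right₀ (le_max_left _ _) hj)
    rcases le_total j (j₀ + k₀) with hj | hj
    · exact hsmall j hj
    · induction j, hj using Nat.le_induction with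
      | base => exact hsmall _ le_rfl
      | succ j hj ih =>
        refine le_trans ?_ ih
        have hV : H.Z j (γ t) ∈ H.V := H.Z_mem (hεV t ht) (by omega)
        have h1 := hdec t (hεsub ht) j hV
        have h2 := H.Z_grow (hεV t ht) (j - j₀)
        rw [show j₀ + (j - j₀) = j by omega] at h2
        have h3 : (2 : ℝ) ^ k₀ ≤ 2 ^ (j - j₀) := pow_le_pow_right₀ (by norm_num) (by omega)
        have hx : 0 < ‖(H.Z j (γ t)).1‖ := by linarith [hV.1, H.one_le_R]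
        have h4 : 8 * H.C ^ 2 / ‖(H.Z j (γ t)).1‖ * L ≤ 1 := by
          rw [div_mul_eq_mul_div, div_le_one hx]
          linarith
        calc ‖H.X (j + 1) (γ t) (v t)‖ * L ^ (j + 1)
            ≤ 8 * H.C ^ 2 / ‖(H.Z j (γ t)).1‖ * ‖H.X j (γ t) (v t)‖ * L ^ (j + 1) := by gcongr
          _ = 8 * H.C ^ 2 / ‖(H.Z j (γ t)).1‖ * L * (‖H.X j (γ t) (v t)‖ * L ^ j) := by ring
          _ ≤ 1 * (‖H.X j (γ t) (v t)‖ * L ^ j) := by gcongr
          _ = _ := one_mul _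
  · intro j
    induction j with
    | zero => simp [X]
    | succ j ih =>
      refine ih.trans ?_
      have := (hΛ j _ (H.X j (γ 0) (v 0))
        (hnot j 0 (mem_ball_self (by norm_num)) (h0 j))).2
      calc ‖H.X j (γ 0) (v 0)‖ * Λ ^ j ≤ Λ * ‖H.X (j + 1) (γ 0) (v 0)‖ * Λ ^ j := by
            gcongr; exact this
        _ = _ := by ring

end Data

end Pool.Agent.HenonFol
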