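import Mathlib

/-! One-variable complex analysis tools. -/

set_option autoImplicit false

open Metric Set Filter Topology

namespace Pool.Agent.HenonFol

theorem maxp {F : Type*} [NormedAddCommGroup F] [NormedSpace ℂ F] {f : ℂ → F} {U S : Set ℂ}
    (hU : IsOpen U) (hb : Bornology.IsBounded U) (hS : IsClosed S) (hUS : U ⊆ S)
    (hd : DifferentiableOn ℂ f S) {C : ℝ} (hC : ∀ z ∈ S, z ∉ U → ‖f z‖ ≤ C) {z : ℂ}
    (hz : z ∈ U) : ‖f z‖ ≤ C := by
  have hcl : closure U ⊆ S := closure_minimal hUS hS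
  refine Complex.norm_le_of_forall_mem_frontier_norm_le hb (hd.mono hcl).diffContOnCl ?_
    (subset_closure hz)
  intro w hw
  rw [hU.frontier_eq] at hw
  exact hC w (hcl hw.1) hw.2

/-- Harnack inequality for the logarithm of a holomorphic function of modulus above one. -/
theorem harnack {x : ℂ → ℂ} (hd : DifferentiableOn ℂ x (ball 0 (3 / 4)))
    (h1 : ∀ s ∈ ball (0 : ℂ) (3 / 4), 1 < ‖x s‖) {s : ℂ} (hs : ‖s‖ ≤ 1 / 2) :
    Real.log ‖x s‖ ≤ 5 * Real.log ‖x 0‖ := by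
  have hne : ∀ s ∈ ball (0 : ℂ) (3 / 4), x s ≠ 0 := fun s hs h => by
    have := h1 s hs
    rw [h, norm_zero] at this
    linarith
  have hd' : DifferentiableOn ℂ (fun s => deriv x s / x s) (ball 0 (3 / 4)) :=
    (hd.deriv isOpen_ball).div hd hne
  obtain ⟨L, hL0, hL⟩ := hd'.isExactOn_ball.with_val_at 0 0
  have h0 : (0 : ℂ) ∈ ball (0 : ℂ) (3 / 4) := mem_ball_self (by norm_num)
  have hconst : ∀ s ∈ ball (0 : ℂ) (3 / 4), x s * Complex.exp (-L s) = x 0 := by
    have hder : ∀ s ∈ ball (0 : ℂ) (3 / 4),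
        HasDerivAt (fun s => x s * Complex.exp (-L s)) 0 s := by
      intro s hs
      have hx := (hd.differentiableAt (isOpen_ball.mem_nhds hs)).hasDerivAt
      have := hx.mul ((hL s hs).neg.cexp)
      refine this.congr_deriv ?_
      have := hne s hs
      field_simp
      ring
    intro s hs
    have := (convex_ball (0 : ℂ) (3 / 4)).is_const_of_fderivWithin_eq_zero (𝕜 := ℂ)
      (f := fun s => x s * Complex.exp (-L s))
      (fun w hw => (hder w hw).differentiableAt.differentiableWithinAt)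
      (fun w hw => by
        rw [fderivWithin_of_isOpen isOpen_ball hw, (hder w hw).hasFDerivAt.fderiv]
        simp) hs h0
    simpa [hL0] using this
  have hlog : ∀ s ∈ ball (0 : ℂ) (3 / 4), Real.log ‖x s‖ = Real.log ‖x 0‖ + (L s).re := by
    intro s hs
    rw [← hconst s hs, norm_mul, Complex.norm_exp,
      Real.log_mul (norm_ne_zero_iff.mpr (hne s hs)) (Real.exp_pos _).ne', Real.log_exp]
    simp
  have hM : 0 < Real.log ‖x 0‖ := Real.log_pos (h1 0 h0)
  have hsb : s ∈ ball (0 : ℂ) (3 / 4) := by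
    rw [mem_ball_zero_iff]; linarith
  have hbc := Complex.borelCaratheodory_zero (f := fun s => -L s) (R := 3 / 4) (z := s) hM
    (fun w hw => (hL w hw).differentiableAt.differentiableWithinAt.neg)
    (fun w hw => by
      have := hlog w hw
      have h2 := Real.log_pos (h1 w hw)
      simp only [mem_ofPred_eq, Complex.neg_re]
      linarith) (by norm_num) hsb (by simp [hL0])
  have h3 : 2 * Real.log ‖x 0‖ * ‖s‖ / (3 / 4 - ‖s‖) ≤ 4 * Real.log ‖x 0‖ := by
    rw [div_le_iff₀ (by linarith)]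
    nlinarith [norm_nonneg s]
  have h4 : (L s).re ≤ ‖-L s‖ := by
    rw [norm_neg]; exact Complex.re_le_norm _
  rw [hlog s hsb]
  linarith

/-- The derivative along the first variable is holomorphic in the second variable. -/
theorem vhol {F : Type*} [NormedAddCommGroup F] [NormedSpace ℂ F] [CompleteSpace F]
    {ψ : ℂ × ℂ → F} (hψ : DifferentiableOn ℂ ψ (ball 0 1 ×ˢ ball 0 1)) {M : ℝ}
    (hM : ∀ s ∈ ball (0 : ℂ) (3 / 4), ∀ t ∈ ball (0 : ℂ) (3 / 4), ‖ψ (s, t)‖ ≤ M) :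
    DifferentiableOn ℂ (fun t => deriv (fun s => ψ (s, t)) 0) (ball 0 (3 / 4)) := by
  have hsub : ball (0 : ℂ) (3 / 4) ⊆ ball 0 1 := ball_subset_ball (by norm_num)
  have h0 : (0 : ℂ) ∈ ball (0 : ℂ) (3 / 4) := mem_ball_self (by norm_num)
  have hs : ∀ t ∈ ball (0 : ℂ) (3 / 4),
      DifferentiableOn ℂ (fun s => ψ (s, t)) (ball 0 (3 / 4)) := fun t ht =>
    hψ.comp (by fun_prop) (fun s hs => ⟨hsub hs, hsub ht⟩)
  have ht : ∀ s ∈ ball (0 : ℂ) (3 / 4),
      DifferentiableOn ℂ (fun t => ψ (s, t)) (ball 0 (3 / 4)) := fun s hs =>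
    hψ.comp (by fun_prop) (fun t ht => ⟨hsub hs, hsub ht⟩)
  have hest : ∀ t ∈ ball (0 : ℂ) (3 / 4), ∀ s ∈ ball (0 : ℂ) (3 / 4),
      dist (dslope (fun s => ψ (s, t)) 0 s) (deriv (fun s => ψ (s, t)) 0) ≤
        (2 * (2 * M / (3 / 4))) / (3 / 4) * dist s 0 := by
    intro t ht s hs'
    have hb : ∀ w ∈ ball (0 : ℂ) (3 / 4), ‖dslope (fun s => ψ (s, t)) 0 w‖ ≤ 2 * M / (3 / 4) := by
      intro w hw
      refine Complex.norm_dslope_le_div_of_mapsTo_ball (hs t ht) ?_ hw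
      intro u hu
      rw [mem_closedBall, dist_eq_norm]
      have := norm_sub_le (ψ (u, t)) (ψ (0, t))
      have := hM u hu t ht
      have := hM 0 h0 t ht
      linarith
    have hdd : DifferentiableOn ℂ (dslope (fun s => ψ (s, t)) 0) (ball 0 (3 / 4)) :=
      (Complex.differentiableOn_dslope (isOpen_ball.mem_nhds h0)).mpr (hs t ht)
    rw [← dslope_same]
    refine Complex.dist_le_div_mul_dist_of_mapsTo_ball hdd ?_ hs'
    intro u hu
    rw [mem_closedBall, dist_eq_norm]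
    have := norm_sub_le (dslope (fun s => ψ (s, t)) 0 u) (dslope (fun s => ψ (s, t)) 0 0)
    have := hb u hu
    have := hb 0 h0
    linarith
  refine TendstoLocallyUniformlyOn.differentiableOn (φ := 𝓝[≠] (0 : ℂ))
    (F := fun s t => dslope (fun s => ψ (s, t)) 0 s) ?_ ?_ isOpen_ball
  · refine TendstoUniformlyOn.tendstoLocallyUniformlyOn ?_
    rw [Metric.tendstoUniformlyOn_iff]
    intro ε hε
    have hc : Tendsto (fun s : ℂ => (2 * (2 * M / (3 / 4))) / (3 / 4) * dist s 0) (𝓝 0) (𝓝 0) := by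
      have : Continuous (fun s : ℂ => (2 * (2 * M / (3 / 4))) / (3 / 4) * dist s 0) := by fun_prop
      simpa using this.tendsto 0
    filter_upwards [nhdsWithin_le_nhds (hc.eventually (gt_mem_nhds hε)),
      nhdsWithin_le_nhds (isOpen_ball.mem_nhds h0)] with s h1 h2 t ht
    rw [dist_comm]
    exact (hest t ht s h2).trans_lt h1
  · filter_upwards [self_mem_nhdsWithin, nhdsWithin_le_nhds (isOpen_ball.mem_nhds h0)]
      with s h1 h2
    have : (fun t => dslope (fun s => ψ (s, t)) 0 s) =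
        fun t => (s - 0)⁻¹ • (ψ (s, t) - ψ (0, t)) := by
      funext t
      rw [dslope_of_ne _ h1, slope_def_module]
    rw [this]
    exact ((ht s h2).sub (ht 0 h0)).const_smul _

/-- Two-constants argument on an annulus. -/
theorem twoconst {F : Type*} [NormedAddCommGroup F] [NormedSpace ℂ F] {h : ℕ → ℂ → F}
    {ρ ε M c Λ : ℝ} {t₀ : ℂ} (hε : 0 < ε) (hεt : ε < ‖t₀‖) (ht : ‖t₀‖ ≤ ρ / 4)
    (hd : ∀ j, DifferentiableOn ℂ (h j) (closedBall 0 ρ))
    (hM : ∀ j, ∀ t ∈ closedBall (0 : ℂ) ρ, ‖h j t‖ ≤ M)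
    (hsm : ∀ L : ℝ, 0 < L → ∃ M' : ℝ, ∀ j, ∀ t ∈ closedBall t₀ ε, ‖h j t‖ * L ^ j ≤ M')
    (hc : 0 < c) (hΛ : 0 < Λ) (hlow : ∀ j, c ≤ ‖h j 0‖ * Λ ^ j) : False := by
  obtain ⟨κ, hκ⟩ : ∃ κ : ℕ, 2 * Λ < 2 ^ κ := pow_unbounded_of_one_lt _ (by norm_num)
  have ht0 : 0 < ‖t₀‖ := hε.trans hεt
  obtain ⟨M', hM'⟩ := hsm (2 * Λ * (‖t₀‖ / ε) ^ κ) (by positivity)
  have hρ : 0 < ρ := by linarith
  have key : ∀ j, c * 2 ^ j ≤ max M M' := by
    intro j
    have hmain := maxp (f := fun t => ((t₀ / (t - t₀)) ^ κ * (2 * Λ : ℝ)) ^ j • h j t)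
      (U := ball t₀ (ρ / 2) \ closedBall t₀ ε) (S := closedBall t₀ (ρ / 2) \ ball t₀ ε)
      (isOpen_ball.sdiff isClosed_closedBall) (isBounded_ball.subset sdiff_subset)
      (isClosed_closedBall.sdiff isOpen_ball)
      (sdiff_subset_sdiff ball_subset_closedBall ball_subset_closedBall) ?_ (C := max M M') ?_
      (z := 0) ?_
    · have h1 := hlow j
      have hne : t₀ ≠ 0 := norm_pos_iff.mp ht0
      simp only [norm_smul, norm_pow, norm_mul, norm_div, zero_sub, norm_neg,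
        div_self ht0.ne', one_pow, one_mul, Complex.norm_real, Real.norm_eq_abs, abs_of_pos hΛ,
        abs_two] at hmain
      calc c * 2 ^ j ≤ ‖h j 0‖ * Λ ^ j * 2 ^ j := by gcongr
        _ = (2 * Λ) ^ j * ‖h j 0‖ := by rw [mul_pow]; ring
        _ ≤ _ := hmain
    · have hsub : closedBall t₀ (ρ / 2) \ ball t₀ ε ⊆ closedBall 0 ρ := by
        refine sdiff_subset.trans (closedBall_subset_closedBall' ?_)
        rw [dist_zero_right]; linarith
      refine DifferentiableOn.smul ?_ ((hd j).mono hsub)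
      refine DifferentiableOn.pow (DifferentiableOn.mul_const (DifferentiableOn.pow ?_ _) _) _
      refine DifferentiableOn.div (by fun_prop) (by fun_prop) ?_
      intro t ht h0
      apply ht.2
      rw [sub_eq_zero.mp h0]
      exact mem_ball_self hε
    · intro t htS htU
      simp only [norm_smul, norm_pow, norm_mul, norm_div, Complex.norm_real, Real.norm_eq_abs,
        abs_of_pos hΛ, abs_two]
      have h1 : ‖t - t₀‖ ≤ ρ / 2 := by simpa [dist_eq_norm] using htS.1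
      have h2 : ε ≤ ‖t - t₀‖ := by simpa [dist_eq_norm] using htS.2
      by_cases h3 : ‖t - t₀‖ ≤ ε
      · have h4 : ‖t - t₀‖ = ε := le_antisymm h3 h2
        have := hM' j t (by rw [mem_closedBall, dist_eq_norm]; exact h3)
        rw [h4]
        refine le_trans (le_of_eq ?_) (this.trans (le_max_right _ _))
        ring
      · have h4 : ρ / 2 ≤ ‖t - t₀‖ := by
          by_contra h5
          apply htU
          refine ⟨by rw [mem_ball, dist_eq_norm]; linarith, ?_⟩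
          rw [mem_closedBall, dist_eq_norm]; exact h3
        have h5 : ‖t₀‖ / ‖t - t₀‖ ≤ 1 / 2 := by
          rw [div_le_iff₀ (by linarith)]; linarith
        have h6 : (‖t₀‖ / ‖t - t₀‖) ^ κ * (2 * Λ) ≤ 1 := by
          calc (‖t₀‖ / ‖t - t₀‖) ^ κ * (2 * Λ) ≤ (1 / 2) ^ κ * 2 ^ κ := by gcongr
            _ = 1 := by rw [← mul_pow]; norm_num
        have h7 := hM j t (by
          rw [mem_closedBall_zero_iff]
          have := norm_add_le (t - t₀) t₀
          rw [sub_add_cancel] at this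
          linarith)
        calc ((‖t₀‖ / ‖t - t₀‖) ^ κ * (2 * Λ)) ^ j * ‖h j t‖ ≤ 1 ^ j * M := by gcongr
          _ ≤ _ := by simp
    · refine ⟨?_, ?_⟩
      · rw [mem_ball, dist_zero_left]; linarith
      · rw [mem_closedBall, dist_zero_left]; linarith
  obtain ⟨j, hj⟩ : ∃ j : ℕ, max M M' / c < 2 ^ j := pow_unbounded_of_one_lt _ (by norm_num)
  rw [div_lt_iff₀ hc] at hj
  have := key j
  linarith

/-- Summable perturbation of a two-term recursion. -/
theorem seq_est {σ τ : ℕ → ℂ} {e : ℕ → ℝ} (he0 : e 0 ≤ 1 / 16) (hpos : ∀ k, 0 ≤ e k)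
    (he : ∀ k, e (k + 1) ≤ e k / 2)
    (hσ : ∀ k, ‖σ (k + 1) - σ k‖ ≤ e k * (‖σ k‖ + ‖τ k‖))
    (hτ : ∀ k, ‖τ (k + 1)‖ ≤ e k * ‖σ k‖) (k : ℕ) :
    e k ≤ e 0 * (1 / 2) ^ k ∧ ‖σ k‖ + ‖τ k‖ ≤ (2 - (1 / 2) ^ k) * (‖σ 0‖ + ‖τ 0‖) ∧
      ‖σ k - σ 0‖ ≤ 4 * e 0 * (1 - (1 / 2) ^ k) * (‖σ 0‖ + ‖τ 0‖) := by
  induction k with
  | zero => norm_num
  | succ k ih =>
    obtain ⟨h1, h2, h3⟩ := ih
    set N := ‖σ 0‖ + ‖τ 0‖ with hN
    have hN0 : 0 ≤ N := by positivity
    set w : ℝ := (1 / 2) ^ k with hw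
    have hw0 : 0 ≤ w := by positivity
    have hw1 : w ≤ 1 := pow_le_one₀ (by norm_num) (by norm_num)
    have hsucc : ((1 : ℝ) / 2) ^ (k + 1) = w / 2 := by rw [pow_succ]; ring
    rw [hsucc]
    have h4 : ‖σ k‖ + ‖τ k‖ ≤ 2 * N := by nlinarith
    have h5 : e k * (‖σ k‖ + ‖τ k‖) ≤ e 0 * w * (2 * N) := by
      have := hpos k
      have := mul_nonneg (hpos 0) hw0
      gcongr
    have h6 := hσ k
    have h7 := hτ k
    have h8 : e k * ‖σ k‖ ≤ e k * (‖σ k‖ + ‖τ k‖) := by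
      have := hpos k
      have := norm_nonneg (τ k)
      gcongr; linarith
    have h9 : e 0 * (w * N) ≤ 1 / 16 * (w * N) := by gcongr
    refine ⟨by have := he k; linarith, ?_, ?_⟩
    · have := norm_add_le (σ (k + 1) - σ k) (σ k)
      rw [sub_add_cancel] at this
      have := norm_nonneg (τ k)
      have := mul_nonneg hw0 hN0
      nlinarith
    · have := norm_add_le (σ (k + 1) - σ k) (σ k - σ 0)
      rw [sub_add_sub_cancel] at this
      nlinarith

end Pool.Agent.HenonFol
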