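import Pool.Agent.P.MP_f1ed12_an.Cx

/-! Non-autonomous iteration of Henon type maps with uniform estimates. -/

set_option autoImplicit false

open Metric Set Filter Topology

namespace Pool.Agent.HenonFol

/-- A sequence of elementary Henon maps with uniform estimates. -/
structure Data where
  p : ℕ → ℂ → ℂ
  q : ℕ → ℂ → ℂ
  a : ℕ → ℂ
  d : ℕ → ℕ
  C : ℝ
  hp : ∀ j x, HasDerivAt (p j) (q j x) x
  hq : ∀ j, Differentiable ℂ (q j)
  hd : ∀ j, 2 ≤ d j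
  hC : 1 ≤ C
  low : ∀ j x y, C ≤ ‖x‖ → ‖y‖ ≤ ‖x‖ → ‖x‖ ^ d j ≤ C * ‖p j x - a j * y‖
  der : ∀ j x y, C ≤ ‖x‖ → ‖y‖ ≤ ‖x‖ →
    ‖x‖ * ‖x * q j x - d j * (p j x - a j * y)‖ ≤ C * ‖p j x - a j * y‖
  up : ∀ j (x y : ℂ), ‖p j x - a j * y‖ ≤ C * max 1 ‖(x, y)‖ ^ d j
  ha : ∀ j, ‖a j‖ ≤ C
  ha' : ∀ j, 1 ≤ C * ‖a j‖
  lip : ∀ B : ℝ, ∃ Λ : ℝ, ∀ j x, ‖x‖ ≤ B → ‖q j x‖ ≤ Λ

namespace Data

variable (H : Data)

/-- The elementary map at time `j`. -/
def T (j : ℕ) (z : ℂ × ℂ) : ℂ × ℂ := (H.p j z.1 - H.a j * z.2, z.1)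

/-- The orbit. -/
def Z : ℕ → ℂ × ℂ → ℂ × ℂ
  | 0, z => z
  | j + 1, z => H.T j (Z j z)

/-- The differential of the elementary map. -/
def DT (j : ℕ) (z v : ℂ × ℂ) : ℂ × ℂ := (H.q j z.1 * v.1 - H.a j * v.2, v.1)

/-- The tangent orbit. -/
def X : ℕ → ℂ × ℂ → ℂ × ℂ → ℂ × ℂ
  | 0, _, v => v
  | j + 1, z, v => H.DT j (H.Z j z) (X j z v)

/-- The degree up to time `j`. -/
def D : ℕ → ℕ
  | 0 => 1
  | j + 1 => H.d j * D j

/-- The escape radius. -/
def R : ℝ := 16 * H.C ^ 2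

/-- The forward invariant escaping region. -/
def V : Set (ℂ × ℂ) := {z | H.R < ‖z.1‖ ∧ ‖z.2‖ < ‖z.1‖}

/-- Points that never enter the escaping region. -/
def K : Set (ℂ × ℂ) := {z | ∀ j, H.Z j z ∉ H.V}

theorem C_pos : 0 < H.C := by linarith [H.hC]

theorem C_le_R : 16 * H.C ≤ H.R := by
  have := H.hC
  unfold R; nlinarith

theorem one_le_R : 1 ≤ H.R := by linarith [H.C_le_R, H.hC]

theorem isOpen_V : IsOpen H.V :=
  (isOpen_lt (f := fun _ : ℂ × ℂ => H.R) (g := fun z => ‖z.1‖) continuous_const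
    (by fun_prop)).inter
    (isOpen_lt (f := fun z : ℂ × ℂ => ‖z.2‖) (g := fun z => ‖z.1‖) (by fun_prop) (by fun_prop))

theorem differentiable_p (j : ℕ) : Differentiable ℂ (H.p j) :=
  fun x => (H.hp j x).differentiableAt

theorem differentiable_T (j : ℕ) : Differentiable ℂ (H.T j) := by
  have := H.differentiable_p j
  unfold T
  fun_prop

theorem differentiable_Z (j : ℕ) : Differentiable ℂ (H.Z j) := by
  induction j with
  | zero => exact differentiable_id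
  | succ j ih => exact (H.differentiable_T j).comp ih

theorem isClosed_K : IsClosed H.K := by
  have : H.K = ⋂ j, (H.Z j ⁻¹' H.V)ᶜ := by
    ext z; simp [K]
  rw [this]
  exact isClosed_iInter fun j =>
    (H.isOpen_V.preimage (H.differentiable_Z j).continuous).isClosed_compl

theorem sq_le {z : ℂ × ℂ} (hz : z ∈ H.V) (j : ℕ) : ‖z.1‖ ^ 2 ≤ H.C * ‖(H.T j z).1‖ := by
  have h1 : H.C ≤ ‖z.1‖ := by linarith [hz.1, H.C_le_R, H.C_pos]
  exact (pow_le_pow_right₀ (H.hC.trans h1) (H.hd j)).trans (H.low j z.1 z.2 h1 hz.2.le)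

theorem double {z : ℂ × ℂ} (hz : z ∈ H.V) (j : ℕ) : 2 * ‖z.1‖ ≤ ‖(H.T j z).1‖ := by
  have h1 := H.sq_le hz j
  have h2 : 16 * H.C ≤ ‖z.1‖ := by linarith [hz.1, H.C_le_R]
  have h3 := H.C_pos
  have h4 : H.C * (2 * ‖z.1‖) ≤ H.C * ‖(H.T j z).1‖ := by nlinarith
  exact le_of_mul_le_mul_left h4 h3

theorem T_mem {z : ℂ × ℂ} (hz : z ∈ H.V) (j : ℕ) : H.T j z ∈ H.V := by
  have h1 := H.double hz j
  have h2 := hz.1
  have h3 := H.one_le_R
  refine ⟨by linarith, ?_⟩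
  change ‖z.1‖ < _
  linarith

theorem Z_mem {z : ℂ × ℂ} {i j : ℕ} (hz : H.Z i z ∈ H.V) (hij : i ≤ j) : H.Z j z ∈ H.V := by
  induction j, hij using Nat.le_induction with
  | base => exact hz
  | succ j _ ih => exact H.T_mem ih j

theorem Z_grow {z : ℂ × ℂ} {i : ℕ} (hz : H.Z i z ∈ H.V) (k : ℕ) :
    2 ^ k ≤ ‖(H.Z (i + k) z).1‖ := by
  induction k with
  | zero => have := hz.1; have := H.one_le_R; simp only [pow_zero, add_zero]; linarith
  | succ k ih =>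
    have := H.double (H.Z_mem hz (Nat.le_add_right i k)) (i + k)
    rw [pow_succ]
    change _ ≤ ‖(H.T (i + k) (H.Z (i + k) z)).1‖
    linarith

theorem bound_notV {z : ℂ × ℂ} {j : ℕ} (hz : H.Z j z ∉ H.V) : ‖H.Z j z‖ ≤ max H.R ‖z‖ := by
  induction j with
  | zero => exact le_max_right _ _
  | succ j ih =>
    have h1 : H.Z j z ∉ H.V := fun h => hz (H.T_mem h j)
    have h2 : ‖(H.Z (j + 1) z).2‖ ≤ max H.R ‖z‖ := (norm_fst_le (H.Z j z)).trans (ih h1)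
    rw [Prod.norm_def]
    refine max_le ?_ h2
    by_contra h3
    push Not at h3
    exact hz ⟨(le_max_left _ _).trans_lt h3, h2.trans_lt h3⟩

theorem two_pow_le_D (j : ℕ) : 2 ^ j ≤ H.D j := by
  induction j with
  | zero => exact le_rfl
  | succ j ih =>
    rw [pow_succ, mul_comm]
    exact Nat.mul_le_mul (H.hd j) ih

theorem D_pos (j : ℕ) : 0 < H.D j := lt_of_lt_of_le (by positivity) (H.two_pow_le_D j)

theorem D_pos' (j : ℕ) : (0 : ℝ) < H.D j := by exact_mod_cast H.D_pos j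

theorem one_le_D (j : ℕ) : (1 : ℝ) ≤ H.D j := by exact_mod_cast H.D_pos j

theorem tendsto_D : Tendsto (fun j => (H.D j : ℝ)) atTop atTop := by
  refine tendsto_atTop_mono (fun j => ?_)
    (tendsto_pow_atTop_atTop_of_one_lt (show (1 : ℝ) < 2 by norm_num))
  exact_mod_cast H.two_pow_le_D j

theorem logup (z : ℂ × ℂ) {i j : ℕ} (hij : i ≤ j) :
    Real.log (H.C * max 1 ‖H.Z j z‖) / H.D j ≤ Real.log (H.C * max 1 ‖H.Z i z‖) / H.D i := by
  induction j, hij using Nat.le_induction with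
  | base => exact le_rfl
  | succ j _ ih =>
    refine le_trans ?_ ih
    set w := H.Z j z
    have hC := H.hC
    have hm : 1 ≤ max 1 ‖w‖ := le_max_left _ _
    have hd0 : H.d j ≠ 0 := by have := H.hd j; omega
    have h1 : max 1 ‖w‖ ≤ max 1 ‖w‖ ^ H.d j := le_self_pow₀ hm hd0
    have h2 : max 1 ‖w‖ ^ H.d j ≤ H.C * max 1 ‖w‖ ^ H.d j := by nlinarith
    have h3 : max 1 ‖H.Z (j + 1) z‖ ≤ H.C * max 1 ‖w‖ ^ H.d j := by
      refine max_le (by linarith) ?_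
      rw [Prod.norm_def]
      refine max_le (H.up j w.1 w.2) ?_
      change ‖w.1‖ ≤ _
      have := norm_fst_le w
      have := le_max_right 1 ‖w‖
      linarith
    have h4 : H.C * max 1 ‖H.Z (j + 1) z‖ ≤ (H.C * max 1 ‖w‖) ^ H.d j := by
      rw [mul_pow]
      have : H.C ^ 2 ≤ H.C ^ H.d j := pow_le_pow_right₀ hC (H.hd j)
      calc H.C * max 1 ‖H.Z (j + 1) z‖ ≤ H.C * (H.C * max 1 ‖w‖ ^ H.d j) := by gcongr
        _ = H.C ^ 2 * max 1 ‖w‖ ^ H.d j := by ring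
        _ ≤ _ := by gcongr
    have h5 := Real.log_le_log (by positivity) h4
    rw [Real.log_pow] at h5
    have hD := H.D_pos' j
    have hd : (0 : ℝ) < H.d j := by positivity
    change _ / ((H.d j * H.D j : ℕ) : ℝ) ≤ _
    push_cast
    rw [div_le_div_iff₀ (by positivity) hD]
    nlinarith

theorem loglow {z : ℂ × ℂ} {i j : ℕ} (hz : H.Z i z ∈ H.V) (hij : i ≤ j) :
    Real.log (‖(H.Z i z).1‖ / H.C) / H.D i ≤ Real.log (‖(H.Z j z).1‖ / H.C) / H.D j := by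
  induction j, hij using Nat.le_induction with
  | base => exact le_rfl
  | succ j hij ih =>
    refine le_trans ih ?_
    have hw := H.Z_mem hz hij
    set w := H.Z j z
    have hC := H.hC
    have h1 : H.C ≤ ‖w.1‖ := by linarith [hw.1, H.C_le_R, H.C_pos]
    have h2 := H.low j w.1 w.2 h1 hw.2.le
    have h4 : (‖w.1‖ / H.C) ^ H.d j ≤ ‖(H.Z (j + 1) z).1‖ / H.C := by
      have : H.C ^ 2 ≤ H.C ^ H.d j := pow_le_pow_right₀ hC (H.hd j)
      rw [div_pow, div_le_div_iff₀ (by positivity) (by positivity)]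
      calc ‖w.1‖ ^ H.d j * H.C ≤ H.C * ‖(H.Z (j + 1) z).1‖ * H.C := by gcongr; exact h2
        _ = ‖(H.Z (j + 1) z).1‖ * H.C ^ 2 := by ring
        _ ≤ _ := by gcongr
    have h0 : 0 < ‖w.1‖ := by linarith
    have h5 := Real.log_le_log (by positivity) h4
    rw [Real.log_pow] at h5
    have hD := H.D_pos' j
    have hd0 : H.d j ≠ 0 := by have := H.hd j; omega
    have hd : (0 : ℝ) < H.d j := by positivity
    change _ ≤ _ / ((H.d j * H.D j : ℕ) : ℝ)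
    push_cast
    rw [div_le_div_iff₀ hD (by positivity)]
    nlinarith

theorem hasDerivAt_Z {γ : ℂ → ℂ × ℂ} {v : ℂ × ℂ} {s : ℂ} (h : HasDerivAt γ v s) (j : ℕ) :
    HasDerivAt (fun s => H.Z j (γ s)) (H.X j (γ s) v) s := by
  induction j with
  | zero => exact h
  | succ j ih =>
    have h1 : HasDerivAt (fun s => (H.Z j (γ s)).1) (H.X j (γ s) v).1 s :=
      (ContinuousLinearMap.fst ℂ ℂ ℂ).hasFDerivAt.comp_hasDerivAt s ih
    have h2 : HasDerivAt (fun s => (H.Z j (γ s)).2) (H.X j (γ s) v).2 s :=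
      (ContinuousLinearMap.snd ℂ ℂ ℂ).hasFDerivAt.comp_hasDerivAt s ih
    exact (((H.hp j _).comp s h1).sub (h2.const_mul (H.a j))).prodMk h1

theorem differentiableOn_X {γ v : ℂ → ℂ × ℂ} {W : Set ℂ} (hγ : DifferentiableOn ℂ γ W)
    (hv : DifferentiableOn ℂ v W) (j : ℕ) :
    DifferentiableOn ℂ (fun t => H.X j (γ t) (v t)) W := by
  induction j with
  | zero => exact hv
  | succ j ih =>
    have h1 : DifferentiableOn ℂ (fun t => H.Z j (γ t)) W :=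
      (H.differentiable_Z j).comp_differentiableOn hγ
    exact ((((H.hq j).comp_differentiableOn h1.fst).mul ih.fst).sub
      (ih.snd.const_mul _)).prodMk ih.fst

theorem lipschitz (B : ℝ) : ∃ Λ : ℝ, 1 ≤ Λ ∧ ∀ j z v, ‖z‖ ≤ B →
    ‖H.DT j z v‖ ≤ Λ * ‖v‖ ∧ ‖v‖ ≤ Λ * ‖H.DT j z v‖ := by
  obtain ⟨L, hL⟩ := H.lip B
  have hC := H.hC
  refine ⟨H.C * (|L| + 1), by nlinarith [abs_nonneg L], fun j z v hz => ?_⟩
  have hq : ‖H.q j z.1‖ ≤ |L| := (hL j z.1 ((norm_fst_le z).trans hz)).trans (le_abs_self L)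
  have ha := H.ha j
  have ha' := H.ha' j
  have hL0 := abs_nonneg L
  have h1 := norm_fst_le v
  have h2 := norm_snd_le v
  have hv := norm_nonneg v
  constructor
  · rw [Prod.norm_def]
    refine max_le ?_ ?_
    · change ‖H.q j z.1 * v.1 - H.a j * v.2‖ ≤ _
      calc _ ≤ ‖H.q j z.1‖ * ‖v.1‖ + ‖H.a j‖ * ‖v.2‖ := by
            refine (norm_sub_le _ _).trans ?_
            rw [norm_mul, norm_mul]
        _ ≤ |L| * ‖v‖ + H.C * ‖v‖ := by gcongr
        _ ≤ _ := by nlinarith [mul_nonneg hL0 hv]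
    · change ‖v.1‖ ≤ _
      have : 1 ≤ H.C * (|L| + 1) := by nlinarith
      nlinarith
  · set w := H.DT j z v with hw
    have h3 : ‖v.1‖ ≤ ‖w‖ := norm_snd_le w
    have h4 : ‖H.q j z.1 * v.1 - H.a j * v.2‖ ≤ ‖w‖ := norm_fst_le w
    have hw0 := norm_nonneg w
    have h5 : ‖H.a j‖ * ‖v.2‖ ≤ (|L| + 1) * ‖w‖ := by
      have : H.a j * v.2 = H.q j z.1 * v.1 - (H.q j z.1 * v.1 - H.a j * v.2) := by ring
      rw [← norm_mul, this]
      refine (norm_sub_le _ _).trans ?_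
      rw [norm_mul]
      have : ‖H.q j z.1‖ * ‖v.1‖ ≤ |L| * ‖w‖ := by gcongr
      linarith
    rw [Prod.norm_def v]
    refine max_le ?_ ?_
    · have : 1 ≤ H.C * (|L| + 1) := by nlinarith
      nlinarith
    · calc ‖v.2‖ ≤ H.C * ‖H.a j‖ * ‖v.2‖ := by nlinarith [norm_nonneg v.2]
        _ = H.C * (‖H.a j‖ * ‖v.2‖) := by ring
        _ ≤ H.C * ((|L| + 1) * ‖w‖) := by gcongr
        _ = _ := by ring

/-- Normalised first component of the tangent orbit. -/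
noncomputable def sg (z v : ℂ × ℂ) (j : ℕ) : ℂ := (H.X j z v).1 / ((H.Z j z).1 * H.D j)

/-- Normalised second component of the tangent orbit. -/
noncomputable def ta (z v : ℂ × ℂ) (j : ℕ) : ℂ := (H.X j z v).2 / ((H.Z j z).1 * H.D j)

theorem step {z : ℂ × ℂ} (v : ℂ × ℂ) {j : ℕ} (hz : H.Z j z ∈ H.V) :
    ‖H.sg z v (j + 1) - H.sg z v j‖ ≤
        H.C ^ 2 / ‖(H.Z j z).1‖ * (‖H.sg z v j‖ + ‖H.ta z v j‖) ∧
      ‖H.ta z v (j + 1)‖ ≤ H.C ^ 2 / ‖(H.Z j z).1‖ * ‖H.sg z v j‖ := by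
  have hC := H.hC
  have hsq := H.sq_le hz j
  have hdb := H.double hz j
  have h1 : H.C ≤ ‖(H.Z j z).1‖ := by linarith [hz.1, H.C_le_R, H.C_pos]
  have hder := H.der j _ _ h1 hz.2.le
  set x := (H.Z j z).1 with hx
  set y := (H.Z j z).2 with hy
  set x' := H.p j x - H.a j * y with hx'
  change ‖x‖ ^ 2 ≤ H.C * ‖x'‖ at hsq
  change 2 * ‖x‖ ≤ ‖x'‖ at hdb
  have hx0 : 0 < ‖x‖ := by linarith
  have hx'0 : 0 < ‖x'‖ := by linarith
  have hxne : x ≠ 0 := norm_pos_iff.mp hx0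
  have hx'ne : x' ≠ 0 := norm_pos_iff.mp hx'0
  have hd1 : (1 : ℝ) ≤ H.d j := by
    have := H.hd j
    exact_mod_cast (by omega : 1 ≤ H.d j)
  have hdne : (H.d j : ℂ) ≠ 0 := by
    have := H.hd j
    exact_mod_cast (by omega : H.d j ≠ 0)
  have hDne : (H.D j : ℂ) ≠ 0 := by exact_mod_cast (H.D_pos j).ne'
  have e1 : H.sg z v (j + 1) - H.sg z v j =
      (x * H.q j x - H.d j * x') / (H.d j * x') * H.sg z v j -
        H.a j * x / (H.d j * x') * H.ta z v j := by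
    change (H.q j x * (H.X j z v).1 - H.a j * (H.X j z v).2) / (x' * ((H.d j * H.D j : ℕ) : ℂ)) -
      (H.X j z v).1 / (x * H.D j) = _ * ((H.X j z v).1 / (x * H.D j)) -
        _ * ((H.X j z v).2 / (x * H.D j))
    push_cast
    field_simp
    ring
  have e2 : H.ta z v (j + 1) = x / (H.d j * x') * H.sg z v j := by
    change (H.X j z v).1 / (x' * ((H.d j * H.D j : ℕ) : ℂ)) = _ * ((H.X j z v).1 / (x * H.D j))
    push_cast
    field_simp
  have hb : H.C * ‖x'‖ ≤ H.C * (H.d j * ‖x'‖) := by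
    gcongr; nlinarith
  have hb' : H.C * (H.d j * ‖x'‖) ≤ H.C ^ 2 * (H.d j * ‖x'‖) := by
    gcongr; nlinarith
  have b1 : ‖(x * H.q j x - H.d j * x') / (H.d j * x')‖ ≤ H.C ^ 2 / ‖x‖ := by
    rw [norm_div, norm_mul, Complex.norm_natCast, div_le_div_iff₀ (by positivity) hx0]
    linarith
  have b2 : ‖H.a j * x / (H.d j * x')‖ ≤ H.C ^ 2 / ‖x‖ := by
    rw [norm_div, norm_mul, norm_mul, Complex.norm_natCast, div_le_div_iff₀ (by positivity) hx0]
    have := H.ha j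
    calc ‖H.a j‖ * ‖x‖ * ‖x‖ = ‖H.a j‖ * ‖x‖ ^ 2 := by ring
      _ ≤ H.C * (H.C * (H.d j * ‖x'‖)) := by gcongr; linarith
      _ = _ := by ring
  have b3 : ‖x / (H.d j * x')‖ ≤ H.C ^ 2 / ‖x‖ := by
    rw [norm_div, norm_mul, Complex.norm_natCast, div_le_div_iff₀ (by positivity) hx0]
    nlinarith
  constructor
  · rw [e1, mul_add]
    refine (norm_sub_le _ _).trans ?_
    rw [norm_mul, norm_mul]
    gcongr
  · rw [e2, norm_mul]
    gcongr

theorem seq_V {z : ℂ × ℂ} (v : ℂ × ℂ) {i : ℕ} (hz : H.Z i z ∈ H.V) (k : ℕ) :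
    ‖H.sg z v (i + k)‖ ≤ 2 * (‖H.sg z v i‖ + ‖H.ta z v i‖) ∧
      ‖H.sg z v (i + k) - H.sg z v i‖ ≤
        4 * (H.C ^ 2 / ‖(H.Z i z).1‖) * (‖H.sg z v i‖ + ‖H.ta z v i‖) := by
  have hC := H.C_pos
  have hV : ∀ k, H.Z (i + k) z ∈ H.V := fun k => H.Z_mem hz (Nat.le_add_right i k)
  have hpos : ∀ k, 0 < ‖(H.Z (i + k) z).1‖ := fun k => by linarith [(hV k).1, H.one_le_R]
  obtain ⟨-, h2, h3⟩ := seq_est (σ := fun k => H.sg z v (i + k)) (τ := fun k => H.ta z v (i + k))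
    (e := fun k => H.C ^ 2 / ‖(H.Z (i + k) z).1‖) (by
      rw [div_le_iff₀ (hpos 0)]
      have := (hV 0).1
      unfold R at this
      linarith) (fun k => by positivity) (fun k => by
      have := H.double (hV k) (i + k)
      have h0 := hpos k
      rw [div_div]
      refine div_le_div_of_nonneg_left (by positivity) (by positivity) ?_
      rw [mul_comm]
      exact this) (fun k => (H.step v (hV k)).1) (fun k => (H.step v (hV k)).2) k
  simp only [add_zero] at h2 h3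
  have hw : (0 : ℝ) ≤ (1 / 2) ^ k := by positivity
  have hN : 0 ≤ ‖H.sg z v i‖ + ‖H.ta z v i‖ := by positivity
  constructor
  · nlinarith [norm_nonneg (H.ta z v (i + k))]
  · refine h3.trans ?_
    have : 0 ≤ 4 * (H.C ^ 2 / ‖(H.Z i z).1‖) := by positivity
    have := mul_nonneg (mul_nonneg this hw) hN
    nlinarith

theorem sg_bound {z : ℂ × ℂ} (v : ℂ × ℂ) {i j : ℕ} (hz : H.Z i z ∈ H.V) (hij : i ≤ j) :
    ‖H.sg z v j‖ ≤ 4 * ‖H.X i z v‖ := by
  obtain ⟨k, rfl⟩ := Nat.exists_eq_add_of_le hij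
  have h1 := (H.seq_V v hz k).1
  have h2 : 1 ≤ ‖(H.Z i z).1 * H.D i‖ := by
    rw [norm_mul, Complex.norm_natCast]
    have := hz.1
    nlinarith [H.one_le_R, H.one_le_D i]
  have h3 : ‖H.sg z v i‖ ≤ ‖H.X i z v‖ := by
    rw [sg, norm_div]
    exact (div_le_self (norm_nonneg _) h2).trans (norm_fst_le _)
  have h4 : ‖H.ta z v i‖ ≤ ‖H.X i z v‖ := by
    rw [ta, norm_div]
    exact (div_le_self (norm_nonneg _) h2).trans (norm_snd_le _)
  linarith

theorem fst_decay {z : ℂ × ℂ} (v : ℂ × ℂ) {i : ℕ} (hz : H.Z i z ∈ H.V)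
    (h0 : Tendsto (H.sg z v) atTop (𝓝 0)) :
    ‖(H.X i z v).1‖ ≤ 8 * H.C ^ 2 / ‖(H.Z i z).1‖ * ‖(H.X i z v).2‖ := by
  have hC := H.C_pos
  have hx : 0 < ‖(H.Z i z).1‖ := by linarith [hz.1, H.one_le_R]
  set e := H.C ^ 2 / ‖(H.Z i z).1‖ with he
  have he0 : 0 ≤ e := by positivity
  have he1 : e ≤ 1 / 16 := by
    rw [he, div_le_iff₀ hx]
    have := hz.1
    unfold R at this
    linarith
  have h1 : Tendsto (fun k => ‖H.sg z v (i + k) - H.sg z v i‖) atTop (𝓝 ‖0 - H.sg z v i‖) :=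
    ((h0.comp (tendsto_atTop_mono (fun k => Nat.le_add_left k i) tendsto_id)).sub_const _).norm
  have h2 := le_of_tendsto' h1 (fun k => (H.seq_V v hz k).2)
  rw [zero_sub, norm_neg, ← he] at h2
  have h3 : ‖H.sg z v i‖ ≤ 8 * e * ‖H.ta z v i‖ := by
    nlinarith [norm_nonneg (H.sg z v i), norm_nonneg (H.ta z v i),
      mul_nonneg he0 (norm_nonneg (H.ta z v i))]
  have h4 : 0 < ‖(H.Z i z).1 * H.D i‖ := by
    rw [norm_mul, Complex.norm_natCast]
    have := H.D_pos' i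
    positivity
  rw [sg, ta, norm_div, norm_div, ← mul_div_assoc, div_le_div_iff_of_pos_right h4] at h3
  rw [mul_div_assoc]
  exact h3

theorem decay {z : ℂ × ℂ} (v : ℂ × ℂ) {i : ℕ} (hz : H.Z i z ∈ H.V)
    (h0 : Tendsto (H.sg z v) atTop (𝓝 0)) :
    ‖H.X (i + 1) z v‖ ≤ 8 * H.C ^ 2 / ‖(H.Z i z).1‖ * ‖H.X i z v‖ := by
  have hC := H.C_pos
  have h1 := H.fst_decay v hz h0
  have hz' := H.T_mem hz i
  have h2 := H.fst_decay v (i := i + 1) hz' h0
  have h3 : 8 * H.C ^ 2 / ‖(H.Z (i + 1) z).1‖ ≤ 1 := by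
    have := hz'.1
    have h := H.one_le_R
    change H.R < ‖(H.Z (i + 1) z).1‖ at this
    rw [div_le_one (by linarith)]
    unfold R at this
    nlinarith
  have h4 : ‖(H.X (i + 1) z v).2‖ = ‖(H.X i z v).1‖ := rfl
  have h5 : ‖H.X (i + 1) z v‖ ≤ ‖(H.X i z v).1‖ := by
    rw [Prod.norm_def, h4]
    refine max_le ?_ le_rfl
    rw [h4] at h2
    nlinarith [norm_nonneg (H.X i z v).1]
  refine h5.trans (h1.trans ?_)
  gcongr
  exact norm_snd_le _

end Data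

end Pool.Agent.HenonFol
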