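import Pool.Agent.P.MP_f1ed12_an.Core

/-! Polynomial estimates and the reduction to the non-autonomous system. -/

set_option autoImplicit false

open Metric Set Filter Topology Polynomial

namespace Pool.Agent.HenonFol

theorem poly_bound (r : ℂ[X]) : ∃ S : ℝ, 0 ≤ S ∧ ∀ n, r.natDegree ≤ n → ∀ (x : ℂ) (m : ℝ),
    1 ≤ m → ‖x‖ ≤ m → ‖r.eval x‖ ≤ S * m ^ n := by
  refine ⟨∑ i ∈ Finset.range (r.natDegree + 1), ‖r.coeff i‖, by positivity,
    fun n hn x m hm hx => ?_⟩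
  rw [eval_eq_sum_range, Finset.sum_mul]
  refine (norm_sum_le _ _).trans (Finset.sum_le_sum fun i hi => ?_)
  rw [norm_mul, norm_pow]
  gcongr
  have := Finset.mem_range.mp hi
  exact (pow_le_pow_left₀ (norm_nonneg _) hx i).trans (pow_le_pow_right₀ hm (by omega))

theorem poly_est (p : ℂ[X]) (a : ℂ) (hd : 2 ≤ p.natDegree) (ha : a ≠ 0) :
    ∀ᶠ C : ℝ in atTop,
      (∀ x y : ℂ, C ≤ ‖x‖ → ‖y‖ ≤ ‖x‖ → ‖x‖ ^ p.natDegree ≤ C * ‖p.eval x - a * y‖) ∧
      (∀ x y : ℂ, C ≤ ‖x‖ → ‖y‖ ≤ ‖x‖ →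
        ‖x‖ * ‖x * p.derivative.eval x - p.natDegree * (p.eval x - a * y)‖ ≤
          C * ‖p.eval x - a * y‖) ∧
      (∀ x y : ℂ, ‖p.eval x - a * y‖ ≤ C * max 1 ‖(x, y)‖ ^ p.natDegree) ∧
      ‖a‖ ≤ C ∧ 1 ≤ C * ‖a‖ := by
  obtain ⟨e, he⟩ : ∃ e, p.natDegree = e + 1 := ⟨p.natDegree - 1, by omega⟩
  have he1 : 1 ≤ e := by omega
  have hp0 : p ≠ 0 := by rintro rfl; simp at hd
  have hc : 0 < ‖p.leadingCoeff‖ := norm_pos_iff.mpr (leadingCoeff_ne_zero.mpr hp0)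
  have ha0 : 0 < ‖a‖ := norm_pos_iff.mpr ha
  obtain ⟨S₀, hS₀, h₀⟩ := poly_bound p
  obtain ⟨S₁, hS₁, h₁⟩ := poly_bound p.eraseLead
  obtain ⟨S₂, hS₂, h₂⟩ := poly_bound (X * p.derivative - C (p.natDegree : ℂ) * p)
  have hd₁ : p.eraseLead.natDegree ≤ e := by
    have := eraseLead_natDegree_le p
    omega
  have hd₂ : (X * p.derivative - C (p.natDegree : ℂ) * p).natDegree ≤ e := by
    rw [natDegree_le_iff_coeff_eq_zero]
    intro n hn
    obtain ⟨k, rfl⟩ : ∃ k, n = k + 1 := ⟨n - 1, by omega⟩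
    rw [coeff_sub, coeff_X_mul, coeff_derivative, coeff_C_mul]
    rcases eq_or_lt_of_le (show p.natDegree ≤ k + 1 by omega) with h | h
    · rw [h]; push_cast; ring
    · rw [coeff_eq_zero_of_natDegree_lt h]; ring
  set c := ‖p.leadingCoeff‖ with hcdef
  have hlow : ∀ x y : ℂ, 1 ≤ ‖x‖ → 2 * (S₁ + ‖a‖) / c ≤ ‖x‖ → ‖y‖ ≤ ‖x‖ →
      ‖x‖ ^ p.natDegree ≤ 2 / c * ‖p.eval x - a * y‖ := by
    intro x y hx1 hx2 hy
    have h3 := h₁ e hd₁ x ‖x‖ hx1 le_rfl
    have h4 : p.leadingCoeff * x ^ p.natDegree =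
        (p.eval x - a * y) - p.eraseLead.eval x + a * y := by
      conv_rhs => rw [← eraseLead_add_C_mul_X_pow p]
      simp only [eval_add, eval_mul, eval_C, eval_pow, eval_X]
      rw [eraseLead_add_C_mul_X_pow p]
      ring
    have h5 : c * ‖x‖ ^ p.natDegree ≤ ‖p.eval x - a * y‖ + S₁ * ‖x‖ ^ e + ‖a‖ * ‖x‖ ^ e := by
      rw [hcdef, ← norm_pow, ← norm_mul, h4]
      refine (norm_add_le _ _).trans (add_le_add ((norm_sub_le _ _).trans (by linarith)) ?_)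
      rw [norm_mul]
      gcongr
      exact hy.trans (le_self_pow₀ hx1 (by omega))
    rw [div_le_iff₀ hc] at hx2
    rw [div_mul_eq_mul_div, le_div_iff₀ hc]
    rw [he, pow_succ] at h5 ⊢
    have h6 : 0 ≤ ‖x‖ ^ e := by positivity
    nlinarith [mul_le_mul_of_nonneg_left hx2 h6]
  filter_upwards [eventually_ge_atTop 1, eventually_ge_atTop (2 * (S₁ + ‖a‖) / c),
    eventually_ge_atTop (2 / c), eventually_ge_atTop ((S₂ + p.natDegree * ‖a‖) * (2 / c)),
    eventually_ge_atTop (S₀ + ‖a‖), eventually_ge_atTop (1 / ‖a‖)] with C c1 c2 c3 c4 c5 c6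
  refine ⟨fun x y hx hy => ?_, fun x y hx hy => ?_, fun x y => ?_, by linarith,
    by rwa [div_le_iff₀ ha0] at c6⟩
  · refine (hlow x y (c1.trans hx) (c2.trans hx) hy).trans ?_
    gcongr
  · have hx1 := c1.trans hx
    have h3 := hlow x y hx1 (c2.trans hx) hy
    have h4 := h₂ e hd₂ x ‖x‖ hx1 le_rfl
    simp only [eval_sub, eval_mul, eval_X, eval_C] at h4
    have h5 : x * p.derivative.eval x - p.natDegree * (p.eval x - a * y) =
        (x * p.derivative.eval x - p.natDegree * p.eval x) + p.natDegree * a * y := by ring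
    have h6 : ‖x * p.derivative.eval x - p.natDegree * (p.eval x - a * y)‖ ≤
        (S₂ + p.natDegree * ‖a‖) * ‖x‖ ^ e := by
      rw [h5, add_mul]
      refine (norm_add_le _ _).trans (add_le_add h4 ?_)
      rw [norm_mul, norm_mul, Complex.norm_natCast]
      gcongr
      exact hy.trans (le_self_pow₀ hx1 (by omega))
    calc _ ≤ ‖x‖ * ((S₂ + p.natDegree * ‖a‖) * ‖x‖ ^ e) := by gcongr
      _ = (S₂ + p.natDegree * ‖a‖) * ‖x‖ ^ p.natDegree := by rw [he, pow_succ]; ring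
      _ ≤ (S₂ + p.natDegree * ‖a‖) * (2 / c * ‖p.eval x - a * y‖) := by gcongr
      _ = (S₂ + p.natDegree * ‖a‖) * (2 / c) * ‖p.eval x - a * y‖ := by ring
      _ ≤ _ := by gcongr
  · have hm : 1 ≤ max 1 ‖(x, y)‖ := le_max_left _ _
    have h3 := h₀ _ le_rfl x _ hm ((norm_fst_le (x, y)).trans (le_max_right _ _))
    have h4 : ‖y‖ ≤ max 1 ‖(x, y)‖ ^ p.natDegree :=
      ((norm_snd_le (x, y)).trans (le_max_right _ _)).trans (le_self_pow₀ hm (by omega))
    calc _ ≤ ‖p.eval x‖ + ‖a‖ * ‖y‖ := by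
          refine (norm_sub_le _ _).trans ?_
          rw [norm_mul]
      _ ≤ S₀ * max 1 ‖(x, y)‖ ^ p.natDegree + ‖a‖ * max 1 ‖(x, y)‖ ^ p.natDegree := by gcongr
      _ = (S₀ + ‖a‖) * max 1 ‖(x, y)‖ ^ p.natDegree := by ring
      _ ≤ _ := by gcongr

theorem exists_data {ι : Type} [Fintype ι] (p : ι → ℂ[X]) (a : ι → ℂ)
    (hd : ∀ i, 2 ≤ (p i).natDegree) (ha : ∀ i, a i ≠ 0) (idx : ℕ → ι) :
    ∃ H : Data, ∀ j z, H.T j z = ((p (idx j)).eval z.1 - a (idx j) * z.2, z.1) := by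
  obtain ⟨C, hC1, hC⟩ := ((eventually_ge_atTop (1 : ℝ)).and
    (eventually_all.mpr fun i => poly_est (p i) (a i) (hd i) (ha i))).exists
  refine ⟨⟨fun j x => (p (idx j)).eval x, fun j x => (p (idx j)).derivative.eval x,
    fun j => a (idx j), fun j => (p (idx j)).natDegree, C, fun j x => (p (idx j)).hasDerivAt x,
    fun j => (p (idx j)).derivative.differentiable, fun j => hd _, hC1, fun j => (hC _).1,
    fun j => (hC _).2.1, fun j => (hC _).2.2.1, fun j => (hC _).2.2.2.1, fun j => (hC _).2.2.2.2,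
    fun B => ?_⟩, fun j z => rfl⟩
  choose S hS0 hS using fun i => poly_bound (p i).derivative
  refine ⟨∑ i, S i * max 1 B ^ (p i).derivative.natDegree, fun j x hx => ?_⟩
  refine (hS (idx j) _ le_rfl x _ (le_max_left 1 B) (hx.trans (le_max_right _ _))).trans ?_
  exact Finset.single_le_sum (f := fun i => S i * max 1 B ^ (p i).derivative.natDegree)
    (fun i _ => mul_nonneg (hS0 i) (by positivity)) (Finset.mem_univ _)

theorem Data.Z_foldr (H : Data) (L : List (ℂ × ℂ → ℂ × ℂ)) (j₀ : ℕ)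
    (h : ∀ r (hr : r < L.length), H.T (j₀ + r) = L[L.length - 1 - r]) (z : ℂ × ℂ) :
    H.Z (j₀ + L.length) z = L.foldr (fun g h => g ∘ h) id (H.Z j₀ z) := by
  induction L with
  | nil => rfl
  | cons g L ih =>
    have h1 := h L.length (by simp)
    simp only [List.length_cons, add_tsub_cancel_right, tsub_self, List.getElem_cons_zero] at h1
    rw [List.foldr_cons, Function.comp_apply, ← ih, ← h1]
    · rfl
    · intro r hr
      rw [h r (by simp; omega)]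
      simp only [List.length_cons, add_tsub_cancel_right]
      rw [List.getElem_cons, dif_neg (by omega)]
      congr 1
      omega

theorem exists_data_K {m : ℕ} (hm : 0 < m) (p : Fin m → ℂ[X]) (a : Fin m → ℂ)
    (hd : ∀ i, 2 ≤ (p i).natDegree) (ha : ∀ i, a i ≠ 0) {f : ℂ × ℂ → ℂ × ℂ}
    (hf : f = (List.ofFn (fun i : Fin m => fun z : ℂ × ℂ =>
          ((p i).eval z.1 - a i * z.2, z.1))).foldr (fun g h => g ∘ h) id) :
    ∃ H : Data, H.K = {z : ℂ × ℂ | Bornology.IsBounded (Set.range fun n : ℕ => f^[n] z)} := by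
  obtain ⟨H, hH⟩ := exists_data p a hd ha (fun j => ⟨m - 1 - j % m, by omega⟩)
  have hZ : ∀ n z, H.Z (n * m) z = f^[n] z := by
    intro n z
    induction n with
    | zero => simp [Data.Z]
    | succ n ih =>
      rw [Function.iterate_succ_apply', ← ih, hf, ← H.Z_foldr _ (n * m), List.length_ofFn,
        Nat.succ_mul]
      intro r hr
      funext w
      rw [hH]
      rw [List.length_ofFn] at hr
      simp [Nat.mul_add_mod_of_lt hr]
  refine ⟨H, ?_⟩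
  ext z
  simp only [Data.K, mem_ofPred_eq, isBounded_iff_forall_norm_le]
  constructor
  · intro h
    refine ⟨max H.R ‖z‖, ?_⟩
    rintro _ ⟨n, rfl⟩
    simp only
    rw [← hZ]
    exact H.bound_notV (h _)
  · rintro ⟨M, hM⟩ j hj
    obtain ⟨k, hk⟩ : ∃ k : ℕ, M < 2 ^ k := pow_unbounded_of_one_lt _ (by norm_num)
    have h1 : j + k ≤ (j + k) * m := Nat.le_mul_of_pos_right _ hm
    have h2 := H.Z_grow hj ((j + k) * m - j)
    rw [show j + ((j + k) * m - j) = (j + k) * m by omega, hZ] at h2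
    have h3 : (2 : ℝ) ^ k ≤ 2 ^ ((j + k) * m - j) := pow_le_pow_right₀ (by norm_num) (by omega)
    have h4 := hM _ ⟨j + k, rfl⟩
    have h5 := norm_fst_le (f^[j + k] z)
    simp only at h4
    linarith

theorem Data.no_chart (H : Data) {ψ φ : ℂ × ℂ → ℂ × ℂ}
    (hψ : DifferentiableOn ℂ ψ (ball (0 : ℂ) 1 ×ˢ ball (0 : ℂ) 1))
    (hopen : IsOpen (ψ '' (ball (0 : ℂ) 1 ×ˢ ball (0 : ℂ) 1)))
    (hφ : DifferentiableOn ℂ φ (ψ '' (ball (0 : ℂ) 1 ×ˢ ball (0 : ℂ) 1)))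
    (hinv : Set.LeftInvOn φ ψ (ball (0 : ℂ) 1 ×ˢ ball (0 : ℂ) 1))
    (h0 : ψ 0 ∈ frontier H.K)
    (hpl : ∀ x₁ ∈ ball (0 : ℂ) 1, ∀ x₂ ∈ ball (0 : ℂ) 1, ∀ y ∈ ball (0 : ℂ) 1,
      (ψ (x₁, y) ∈ frontier H.K ↔ ψ (x₂, y) ∈ frontier H.K)) : False := by
  have hb0 : (0 : ℂ) ∈ ball (0 : ℂ) 1 := mem_ball_self one_pos
  have h00 : (0 : ℂ × ℂ) ∈ ball (0 : ℂ) 1 ×ˢ ball (0 : ℂ) 1 := ⟨hb0, hb0⟩
  have hβ : ∀ t ∈ ball (0 : ℂ) 1, DifferentiableOn ℂ (fun s => ψ (s, t)) (ball 0 1) :=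
    fun t ht => hψ.comp (by fun_prop) (fun s hs => ⟨hs, ht⟩)
  have hφ0 : DifferentiableAt ℂ φ (ψ 0) :=
    hφ.differentiableAt (hopen.mem_nhds (mem_image_of_mem _ h00))
  have hdich : ∀ t ∈ ball (0 : ℂ) 1,
      (∀ s ∈ ball (0 : ℂ) 1, ψ (s, t) ∈ H.K) ∨ (∀ s ∈ ball (0 : ℂ) 1, ψ (s, t) ∉ H.K) := by
    intro t ht
    by_cases h : ψ (0, t) ∈ frontier H.K
    · exact Or.inl fun s hs => H.isClosed_K.frontier_subset ((hpl 0 hb0 s hs t ht).mp h)
    · have hpc := (convex_ball (0 : ℂ) 1).isPreconnected.image _ (hβ t ht).continuousOn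
      have := hpc.subset_or_subset isOpen_interior H.isClosed_K.isOpen_compl
        (disjoint_compl_right.mono_left interior_subset) (by
          rintro _ ⟨s, hs, rfl⟩
          have h1 := (hpl 0 hb0 s hs t ht).not.mp h
          rw [H.isClosed_K.frontier_eq] at h1
          by_cases h2 : ψ (s, t) ∈ H.K
          · left
            by_contra h3
            exact h1 ⟨h2, h3⟩
          · exact Or.inr h2)
      rcases this with h1 | h1
      · exact Or.inl fun s hs => interior_subset (h1 (mem_image_of_mem _ hs))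
      · exact Or.inr fun s hs => h1 (mem_image_of_mem _ hs)
  refine H.core hψ ?_ (H.isClosed_K.frontier_subset h0) hdich ?_
  · intro hv
    have h1 : HasDerivAt (fun s => ψ (s, 0)) 0 0 :=
      hv ▸ ((hβ 0 hb0).differentiableAt (isOpen_ball.mem_nhds hb0)).hasDerivAt
    have h2 := hφ0.hasFDerivAt.comp_hasDerivAt (f := fun s => ψ (s, 0)) (0 : ℂ) h1
    have h3 : HasDerivAt (fun s : ℂ => (s, (0 : ℂ))) (1, 0) 0 :=
      (hasDerivAt_id 0).prodMk (hasDerivAt_const 0 0)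
    have h4 : (φ ∘ fun s => ψ (s, 0)) =ᶠ[𝓝 0] fun s : ℂ => (s, (0 : ℂ)) := by
      filter_upwards [isOpen_ball.mem_nhds hb0] with s hs
      exact hinv ⟨hs, hb0⟩
    have h5 := (h3.congr_of_eventuallyEq h4).unique h2
    simp at h5
  · intro ρ hρ
    have h1 : ψ 0 ∈ closure H.Kᶜ := by
      rw [frontier_eq_closure_inter_closure] at h0
      exact h0.2
    have h2 : ∀ᶠ w in 𝓝 (ψ 0), ‖φ w‖ < ρ := by
      refine hφ0.continuousAt.norm.eventually (gt_mem_nhds ?_)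
      change ‖φ (ψ 0)‖ < ρ
      rw [hinv h00, norm_zero]
      exact hρ
    obtain ⟨w, ⟨hw1, ⟨s, t⟩, hst, rfl⟩, hw2⟩ := mem_closure_iff_nhds.mp h1 _
      (inter_mem h2 (hopen.mem_nhds (mem_image_of_mem _ h00)))
    rw [mem_ofPred_eq, hinv hst] at hw1
    refine ⟨t, (norm_snd_le (s, t)).trans_lt hw1, ?_⟩
    rcases hdich t hst.2 with h | h
    · exact absurd (h s hst.1) hw2
    · exact h 0 hb0

end Pool.Agent.HenonFol
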