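import Pool.Agent.P.MP_f1ed12_an.Dyn

/-! The normalised tangent vector tends to zero near a non-escaping parameter. -/

set_option autoImplicit false

open Metric Set Filter Topology

namespace Pool.Agent.HenonFol

namespace Data

variable (H : Data)

theorem uniform_entry {S : Set (ℂ × ℂ)} (hS : IsCompact S) (h : ∀ z ∈ S, z ∉ H.K) :
    ∃ n, ∀ z ∈ S, H.Z n z ∈ H.V := by
  obtain ⟨n, hn⟩ := hS.elim_directed_cover (fun n => H.Z n ⁻¹' H.V)
    (fun n => H.isOpen_V.preimage (H.differentiable_Z n).continuous) (fun z hz => by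
      have := h z hz
      simp only [K, mem_ofPred_eq, not_forall, not_not] at this
      exact mem_iUnion.mpr this)
    (Monotone.directed_le (fun i j hij z hz => H.Z_mem hz hij))
  exact ⟨n, fun z hz => hn hz⟩

theorem one_le_log {z : ℂ × ℂ} (hz : z ∈ H.V) : 1 ≤ Real.log (‖z.1‖ / H.C) := by
  have hC := H.C_pos
  have h1 : 16 ≤ ‖z.1‖ / H.C := by
    rw [le_div_iff₀ hC]; linarith [hz.1, H.C_le_R]
  rw [Real.le_log_iff_exp_le (by linarith)]
  have := Real.exp_one_lt_d9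
  linarith

theorem annulus_bound {γ v : ℂ → ℂ × ℂ} {W : Set ℂ}
    (hγ : DifferentiableOn ℂ γ W) (hv : DifferentiableOn ℂ v W) {C₃ C₆ : ℝ} {j : ℕ}
    (F1 : ∀ t ∈ W, H.Z j (γ t) ∉ H.V → ‖H.X j (γ t) (v t)‖ ≤ C₃)
    (F2 : ∀ t ∈ W, H.Z j (γ t) ∈ H.V → ‖H.sg (γ t) (v t) j‖ ≤ C₆)
    {y : ℂ} {ε r : ℝ} (hε : 0 < ε) (hεr : ε < r) (hsub : closedBall y r ⊆ W) {b : ℕ}
    (hin : ∀ t ∈ closedBall y ε, (r / ε) ^ H.D j ≤ ‖(H.Z j (γ t)).1‖ ^ b) (k : ℕ)
    {t : ℂ} (ht1 : ε < ‖t - y‖) (ht2 : ‖t - y‖ < r) (ht3 : H.Z j (γ t) ∈ H.V) :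
    (‖H.sg (γ t) (v t) j‖ * (r / ‖t - y‖) ^ k) ^ H.D j ≤
      (max C₆ (C₃ / H.D j * (r / ε) ^ k)) ^ H.D j * (‖(H.Z j (γ t)).1‖ ^ b) ^ k := by
  have hr : 0 < r := hε.trans hεr
  have hR := H.one_le_R
  have hZ : DifferentiableOn ℂ (fun t => H.Z j (γ t)) W :=
    (H.differentiable_Z j).comp_differentiableOn hγ
  have hX := H.differentiableOn_X hγ hv j
  set A : Set ℂ := closedBall y r \ ball y ε with hA
  have hAW : A ⊆ W := sdiff_subset.trans hsub
  set S : Set ℂ := A ∩ (fun t => ‖(H.Z j (γ t)).1‖) ⁻¹' Ici H.R with hS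
  set U : Set ℂ := (ball y r \ closedBall y ε) ∩ (fun t => H.Z j (γ t)) ⁻¹' H.V with hU
  have hU0 : ball y r \ closedBall y ε ⊆ A :=
    sdiff_subset_sdiff ball_subset_closedBall ball_subset_closedBall
  have hUo : IsOpen U := (hZ.continuousOn.mono (hU0.trans hAW)).isOpen_inter_preimage
    (isOpen_ball.sdiff isClosed_closedBall) H.isOpen_V
  have hSc : IsClosed S :=
    (hZ.continuousOn.mono hAW).fst.norm.preimage_isClosed_of_isClosed
      (isClosed_closedBall.sdiff isOpen_ball) isClosed_Ici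
  have hUS : U ⊆ S := fun t ht => ⟨hU0 ht.1, ht.2.1.le⟩
  have hDne : (H.D j : ℂ) ≠ 0 := by exact_mod_cast (H.D_pos j).ne'
  have hmain := maxp (f := fun t => (H.sg (γ t) (v t) j * ((r : ℂ) / (t - y)) ^ k) ^ H.D j /
      ((H.Z j (γ t)).1 ^ b) ^ k) hUo ((isBounded_ball.subset sdiff_subset).subset inter_subset_left)
      hSc hUS ?_ (C := (max C₆ (C₃ / H.D j * (r / ε) ^ k)) ^ H.D j) ?_ (z := t) ?_
  · have hx : 0 < ‖(H.Z j (γ t)).1‖ := by linarith [ht3.1]
    simp only [norm_div, norm_pow, norm_mul, Complex.norm_real, Real.norm_eq_abs,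
      abs_of_pos hr] at hmain
    rwa [div_le_iff₀ (by positivity)] at hmain
  · have hSW : S ⊆ W := inter_subset_left.trans hAW
    have hx : ∀ t ∈ S, (H.Z j (γ t)).1 ≠ 0 := fun t ht h => by
      have := ht.2
      simp only [mem_preimage, h, norm_zero, mem_Ici] at this
      linarith
    have hy : ∀ t ∈ S, t - y ≠ 0 := fun t ht h => by
      apply ht.1.2
      rw [sub_eq_zero.mp h]
      exact mem_ball_self hε
    refine DifferentiableOn.div (DifferentiableOn.pow (DifferentiableOn.mul ?_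
      (DifferentiableOn.pow ?_ _)) _) (((hZ.mono hSW).fst.pow _).pow _)
      (fun t ht => pow_ne_zero _ (pow_ne_zero _ (hx t ht)))
    · exact (hX.mono hSW).fst.div ((hZ.mono hSW).fst.mul_const _)
        (fun t ht => mul_ne_zero (hx t ht) hDne)
    · exact DifferentiableOn.div (by fun_prop) (by fun_prop) hy
  · intro t htS htU
    have htW : t ∈ W := hAW htS.1
    have hx : H.R ≤ ‖(H.Z j (γ t)).1‖ := htS.2
    have hx1 : 1 ≤ ‖(H.Z j (γ t)).1‖ := hR.trans hx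
    have h1 : ‖t - y‖ ≤ r := by simpa [dist_eq_norm] using htS.1.1
    have h2 : ε ≤ ‖t - y‖ := by simpa [dist_eq_norm] using htS.1.2
    have hpow : 1 ≤ (‖(H.Z j (γ t)).1‖ ^ b) ^ k := one_le_pow₀ (one_le_pow₀ hx1)
    simp only [norm_div, norm_pow, norm_mul, Complex.norm_real, Real.norm_eq_abs,
      abs_of_pos hr]
    have hty : 0 < ‖t - y‖ := by linarith
    by_cases hV : H.Z j (γ t) ∈ H.V
    · have h3 := (F2 t htW hV).trans (le_max_left _ (C₃ / H.D j * (r / ε) ^ k))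
      rw [div_le_iff₀ (by positivity), mul_pow]
      refine mul_le_mul (pow_le_pow_left₀ (norm_nonneg _) h3 _) ?_ (by positivity)
        (pow_nonneg ((norm_nonneg _).trans h3) _)
      by_cases h4 : ‖t - y‖ ≤ ε
      · have h5 := hin t (by rw [mem_closedBall, dist_eq_norm]; exact h4)
        rw [le_antisymm h4 h2, ← pow_mul, mul_comm, pow_mul]
        gcongr
      · have h5 : r ≤ ‖t - y‖ := by
          by_contra h5
          apply htU
          refine ⟨⟨by rw [mem_ball, dist_eq_norm]; linarith, ?_⟩, hV⟩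
          rw [mem_closedBall, dist_eq_norm]; exact h4
        rw [le_antisymm h1 h5, div_self hr.ne', one_pow, one_pow]
        exact hpow
    · have h3 := F1 t htW hV
      have hD := H.D_pos' j
      have h4 : ‖H.sg (γ t) (v t) j‖ ≤ C₃ / H.D j := by
        rw [sg, norm_div, norm_mul, Complex.norm_natCast]
        refine div_le_div₀ ((norm_nonneg _).trans h3) ((norm_fst_le _).trans h3) hD ?_
        nlinarith
      refine (div_le_self (by positivity) hpow).trans ?_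
      refine pow_le_pow_left₀ (by positivity) (le_trans ?_ (le_max_right _ _)) _
      have : 0 ≤ C₃ / H.D j := (norm_nonneg _).trans h4
      gcongr
  · refine ⟨⟨by rw [mem_ball, dist_eq_norm]; exact ht2, ?_⟩, ht3⟩
    rw [mem_closedBall, dist_eq_norm]
    linarith

theorem vanish {γ v : ℂ → ℂ × ℂ} (hγ : DifferentiableOn ℂ γ (ball 0 (3 / 4)))
    (hv : DifferentiableOn ℂ v (ball 0 (3 / 4))) {C₃ C₆ : ℝ} (hC₆ : 0 < C₆)
    (F1 : ∀ j, ∀ t ∈ ball (0 : ℂ) (3 / 4), H.Z j (γ t) ∉ H.V → ‖H.X j (γ t) (v t)‖ ≤ C₃)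
    (F2 : ∀ j, ∀ t ∈ ball (0 : ℂ) (3 / 4), H.Z j (γ t) ∈ H.V → ‖H.sg (γ t) (v t) j‖ ≤ C₆)
    (h0 : γ 0 ∈ H.K) {y : ℂ} (hy : ‖y‖ < 1 / 8) (hyK : γ y ∉ H.K) :
    ∃ ρ : ℝ, 0 < ρ ∧ ρ ≤ 1 / 2 ∧ ∀ t : ℂ, ‖t‖ ≤ ρ → γ t ∉ H.K →
      Tendsto (H.sg (γ t) (v t)) atTop (𝓝 0) := by
  have hC := H.hC
  have hy0 : 0 < ‖y‖ := norm_pos_iff.mpr (fun h => hyK (h ▸ h0))
  have hcont : ∀ j, ∀ t ∈ ball (0 : ℂ) (3 / 4), ContinuousAt (fun t => H.Z j (γ t)) t :=
    fun j t ht => ((H.differentiable_Z j).comp_differentiableOn hγ).continuousOn.continuousAt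
      (isOpen_ball.mem_nhds ht)
  have hnotK : ∀ z, z ∉ H.K → ∃ j, H.Z j z ∈ H.V := fun z hz => by
    simpa [K] using hz
  obtain ⟨j₁, hj₁⟩ := hnotK _ hyK
  obtain ⟨ε, hε, hεy, hεV⟩ : ∃ ε : ℝ, 0 < ε ∧ ε ≤ ‖y‖ / 2 ∧
      ∀ t ∈ closedBall y ε, H.Z j₁ (γ t) ∈ H.V := by
    have := (hcont j₁ y (by rw [mem_ball_zero_iff]; linarith)).eventually
      (H.isOpen_V.mem_nhds hj₁)
    obtain ⟨ε, hε, h⟩ := Metric.nhds_basis_closedBall.eventually_iff.mp this
    exact ⟨min ε (‖y‖ / 2), by positivity, min_le_right _ _,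
      fun t ht => h (closedBall_subset_closedBall (min_le_left _ _) ht)⟩
  set r := 2 * ‖y‖ with hr
  have hr0 : 0 < r := by positivity
  obtain ⟨b, hb⟩ := exists_nat_ge (H.D j₁ * Real.log (r / ε))
  have hin : ∀ j, j₁ ≤ j → ∀ t ∈ closedBall y ε,
      (r / ε) ^ H.D j ≤ ‖(H.Z j (γ t)).1‖ ^ b := by
    intro j hj t ht
    have h1 := H.loglow (hεV t ht) hj
    have h2 := H.one_le_log (hεV t ht)
    have hV := H.Z_mem (hεV t ht) hj
    have hx : 0 < ‖(H.Z j (γ t)).1‖ := by linarith [hV.1, H.one_le_R]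
    have h3 : Real.log (‖(H.Z j (γ t)).1‖ / H.C) ≤ Real.log ‖(H.Z j (γ t)).1‖ :=
      Real.log_le_log (by positivity) (div_le_self hx.le hC)
    have hD := H.D_pos' j
    have hD₁ := H.D_pos' j₁
    rw [div_le_div_iff₀ hD₁ hD] at h1
    have h4 : (H.D j : ℝ) ≤ Real.log ‖(H.Z j (γ t)).1‖ * H.D j₁ := by nlinarith
    have h5 : 0 ≤ Real.log (r / ε) := Real.log_nonneg (by rw [one_le_div hε]; linarith)
    have h6 : 0 ≤ Real.log ‖(H.Z j (γ t)).1‖ :=
      Real.log_nonneg (by linarith [hV.1, H.one_le_R])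
    rw [← Real.log_le_log_iff (by positivity) (by positivity), Real.log_pow, Real.log_pow]
    calc H.D j * Real.log (r / ε) ≤ Real.log ‖(H.Z j (γ t)).1‖ * H.D j₁ * Real.log (r / ε) := by
          gcongr
      _ = H.D j₁ * Real.log (r / ε) * Real.log ‖(H.Z j (γ t)).1‖ := by ring
      _ ≤ _ := by gcongr
  set B := max H.R ‖γ 0‖ + 1 with hB
  have hB1 : 1 ≤ B := by
    have := le_max_right H.R ‖γ 0‖
    have := norm_nonneg (γ 0)
    linarith
  obtain ⟨m, hm⟩ : ∃ m, b * Real.log (H.C * B) / Real.log (5 / 4) ≤ H.D m :=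
    (H.tendsto_D.eventually_ge_atTop _).exists
  have hlog : 0 < Real.log (5 / 4) := Real.log_pos (by norm_num)
  rw [div_le_iff₀ hlog] at hm
  obtain ⟨ρ, hρ, hρy, hρB⟩ : ∃ ρ : ℝ, 0 < ρ ∧ ρ ≤ ‖y‖ / 3 ∧
      ∀ t ∈ closedBall (0 : ℂ) ρ, ‖H.Z m (γ t)‖ < B := by
    have h1 : ‖H.Z m (γ 0)‖ < B := by
      have := H.bound_notV (h0 m)
      linarith
    have := (hcont m 0 (mem_ball_self (by norm_num))).norm.eventually (gt_mem_nhds h1)
    obtain ⟨ρ, hρ, h⟩ := Metric.nhds_basis_closedBall.eventually_iff.mp this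
    exact ⟨min ρ (‖y‖ / 3), by positivity, min_le_right _ _,
      fun t ht => h (closedBall_subset_closedBall (min_le_left _ _) ht)⟩
  refine ⟨ρ, hρ, by linarith, fun t ht htK => ?_⟩
  obtain ⟨j₂, hj₂⟩ := hnotK _ htK
  have ht1 : ‖t - y‖ ≤ 4 / 3 * ‖y‖ := by
    have := norm_sub_le t y
    linarith
  have ht2 : 2 / 3 * ‖y‖ ≤ ‖t - y‖ := by
    have := norm_sub_le t (t - y)
    rw [sub_sub_cancel] at this
    linarith
  have hsub : closedBall y r ⊆ ball 0 (3 / 4) := by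
    refine closedBall_subset_ball' ?_
    rw [dist_zero_right]; linarith
  have key : ∀ k j, j₁ ≤ j → j₂ ≤ j → m ≤ j →
      ‖H.sg (γ t) (v t) j‖ ≤ max C₆ (C₃ / H.D j * (r / ε) ^ k) * (5 / 6) ^ k := by
    intro k j h1 h2 h3
    have hV := H.Z_mem hj₂ h2
    have h4 := H.annulus_bound hγ hv (F1 j) (F2 j) hε (by linarith) hsub (hin j h1) k
      (t := t) (by linarith) (by linarith) hV
    have hx : 1 ≤ ‖(H.Z j (γ t)).1‖ := by linarith [hV.1, H.one_le_R]
    have hD := H.D_pos' j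
    have hDm := H.D_pos' m
    have h5 : ‖(H.Z j (γ t)).1‖ ^ b ≤ (5 / 4) ^ H.D j := by
      have h6 := H.logup (γ t) h3
      have h7 : Real.log ‖(H.Z j (γ t)).1‖ ≤ Real.log (H.C * max 1 ‖H.Z j (γ t)‖) := by
        refine Real.log_le_log (by linarith) ?_
        have := (norm_fst_le (H.Z j (γ t))).trans (le_max_right 1 _)
        nlinarith
      have h8 : Real.log (H.C * max 1 ‖H.Z m (γ t)‖) ≤ Real.log (H.C * B) := by
        refine Real.log_le_log (by positivity) ?_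
        gcongr
        exact max_le hB1 (hρB t (by rwa [mem_closedBall_zero_iff])).le
      rw [div_le_div_iff₀ hD hDm] at h6
      rw [← Real.log_le_log_iff (by positivity) (by positivity), Real.log_pow, Real.log_pow]
      refine le_of_mul_le_mul_right ?_ hDm
      calc b * Real.log ‖(H.Z j (γ t)).1‖ * H.D m
          ≤ b * (Real.log (H.C * max 1 ‖H.Z j (γ t)‖) * H.D m) := by rw [mul_assoc]; gcongr
        _ ≤ b * (Real.log (H.C * B) * H.D j) := by
            refine mul_le_mul_of_nonneg_left (h6.trans ?_) (by positivity)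
            gcongr
        _ = b * Real.log (H.C * B) * H.D j := by ring
        _ ≤ H.D m * Real.log (5 / 4) * H.D j := by gcongr
        _ = _ := by ring
    set M := max C₆ (C₃ / H.D j * (r / ε) ^ k) with hM
    have hM0 : 0 < M := lt_max_of_lt_left hC₆
    have h6 : (‖H.sg (γ t) (v t) j‖ * (r / ‖t - y‖) ^ k) ^ H.D j ≤ (M * (5 / 4) ^ k) ^ H.D j := by
      refine h4.trans ?_
      rw [mul_pow, ← pow_mul (5 / 4 : ℝ), mul_comm k, pow_mul]
      gcongr
    have h7 := le_of_pow_le_pow_left₀ (H.D_pos j).ne' (by positivity) h6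
    have h8 : 3 / 2 ≤ r / ‖t - y‖ := by
      rw [le_div_iff₀ (by linarith)]; linarith
    have h9 : ‖H.sg (γ t) (v t) j‖ * (3 / 2) ^ k ≤ M * (5 / 6) ^ k * (3 / 2) ^ k := by
      calc _ ≤ ‖H.sg (γ t) (v t) j‖ * (r / ‖t - y‖) ^ k := by gcongr
        _ ≤ _ := h7
        _ = _ := by rw [mul_assoc, ← mul_pow]; norm_num
    exact le_of_mul_le_mul_right h9 (by positivity)
  rw [tendsto_zero_iff_norm_tendsto_zero]
  refine tendsto_order.mpr ⟨fun a ha => Eventually.of_forall fun j => ha.trans_le (norm_nonneg _),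
    fun η hη => ?_⟩
  obtain ⟨k, hk⟩ := exists_pow_lt_of_lt_one (div_pos hη hC₆) (show (5 / 6 : ℝ) < 1 by norm_num)
  filter_upwards [eventually_ge_atTop j₁, eventually_ge_atTop j₂, eventually_ge_atTop m,
    H.tendsto_D.eventually_ge_atTop (C₃ * (r / ε) ^ k / C₆)] with j h1 h2 h3 h4
  have h5 := key k j h1 h2 h3
  have hD := H.D_pos' j
  have h6 : C₃ / H.D j * (r / ε) ^ k ≤ C₆ := by
    rw [div_le_iff₀ hC₆] at h4
    rw [div_mul_eq_mul_div, div_le_iff₀ hD]
    linarith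
  rw [max_eq_left h6] at h5
  rw [lt_div_iff₀ hC₆] at hk
  linarith

end Data

end Pool.Agent.HenonFol
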